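import Pool.Agent.TH811.SPD.Str10

/-!
Agmon's inequality on the torus: `‖f‖_∞² ≤ C ‖∇f‖ ‖Δf‖` for periodic functions with mean zero.
-/

open MeasureTheory Set Filter Topology
open scoped ContDiff ENNReal NNReal
open H459R3.NS Pool.Agent.W268.NS Pool.Agent.TH811.SPD

namespace Pool.Agent.Q177.ML

/-- the box of the frequencies with `N k ≤ n` -/
noncomputable def box (n : ℕ) : Finset K3 := Finset.Icc (fun _ => -(n : ℤ)) (fun _ => (n : ℤ))

theorem mem_box {n : ℕ} {k : K3} : k ∈ box n ↔ N k ≤ n := by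
  unfold box
  rw [Finset.mem_Icc, N_le_iff]
  constructor
  · rintro ⟨h1, h2⟩ j
    exact abs_le.2 ⟨h1 j, h2 j⟩
  · intro h
    exact ⟨fun j => (abs_le.1 (h j)).1, fun j => (abs_le.1 (h j)).2⟩

theorem card_box (n : ℕ) : (box n).card = (2 * n + 1) ^ 3 := by
  unfold box
  rw [Pi.card_Icc]
  simp only [Int.card_Icc, Finset.prod_const, Finset.card_univ, Fintype.card_fin]
  congr 1
  omega

theorem card_shell (F : Finset K3) (n : ℕ) :
    ({k ∈ F | N k = n + 1}.card : ℝ) ≤ 26 * ((n : ℝ) + 1) ^ 2 := by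
  have h1 : {k ∈ F | N k = n + 1} ⊆ box (n + 1) \ box n := by
    intro k hk
    rw [Finset.mem_filter] at hk
    rw [Finset.mem_sdiff, mem_box, mem_box]
    omega
  have h2 := Finset.card_le_card h1
  have h3 : box n ⊆ box (n + 1) := by
    intro k hk
    rw [mem_box] at hk ⊢
    omega
  have h4 := Finset.card_sdiff_add_card_eq_card h3
  rw [card_box, card_box] at h4
  have h5 : {k ∈ F | N k = n + 1}.card + (2 * n + 1) ^ 3 ≤ (2 * (n + 1) + 1) ^ 3 := by omega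
  have h6 : ({k ∈ F | N k = n + 1}.card : ℝ) + (2 * (n : ℝ) + 1) ^ 3
      ≤ (2 * ((n : ℝ) + 1) + 1) ^ 3 := by exact_mod_cast h5
  have h7 : (0 : ℝ) ≤ n := Nat.cast_nonneg n
  nlinarith

/-- the weight -/
noncomputable def wgt (l : ℝ) (n : ℕ) : ℝ := if n = 0 then 0 else 1 / (l * (n : ℝ) ^ 2 + (n : ℝ) ^ 4)

theorem wgt_nonneg {l : ℝ} (hl : 0 ≤ l) (n : ℕ) : 0 ≤ wgt l n := by
  unfold wgt
  split_ifs
  · exact le_rfl
  · positivity

theorem tele {s : ℝ} (hs : 0 < s) (m : ℕ) :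
    ∑ n ∈ Finset.range m, 1 / (s ^ 2 + ((n : ℝ) + 1) ^ 2) ≤ 2 * (1 / s - 1 / (s + m)) := by
  induction m with
  | zero => simp
  | succ m ih =>
    rw [Finset.sum_range_succ]
    have h1 : (0 : ℝ) ≤ m := Nat.cast_nonneg m
    have h2 : 1 / (s ^ 2 + ((m : ℝ) + 1) ^ 2) ≤ 2 * (1 / (s + m) - 1 / (s + (m + 1))) := by
      have e : 2 * (1 / (s + m) - 1 / (s + (m + 1))) = 2 / ((s + m) * (s + (m + 1))) := by
        field_simp
        ring
      rw [e, div_le_div_iff₀ (by positivity) (by positivity)]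
      nlinarith [sq_nonneg (s - (m + 1))]
    push_cast
    linarith

theorem lat {l : ℝ} (hl : 0 < l) (F : Finset K3) : ∑ k ∈ F, wgt l (N k) ≤ 52 / Real.sqrt l := by
  have h1 : ∑ k ∈ F, wgt l (N k) = ∑ b ∈ F.image N, {k ∈ F | N k = b}.card • wgt l b :=
    Finset.sum_comp (wgt l) N
  set R := (F.image N).sup id with hR
  have h2 : F.image N ⊆ Finset.range (R + 1 + 1) := by
    intro b hb
    rw [Finset.mem_range]
    have : b ≤ R := Finset.le_sup (f := id) hb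
    omega
  have h3 : ∀ b : ℕ, 0 ≤ ({k ∈ F | N k = b}.card • wgt l b : ℝ) := fun b =>
    nsmul_nonneg (wgt_nonneg hl.le b) _
  rw [h1]
  refine (Finset.sum_le_sum_of_subset_of_nonneg h2 fun b _ _ => h3 b).trans ?_
  rw [Finset.sum_range_succ']
  have h4 : ({k ∈ F | N k = 0}.card • wgt l 0 : ℝ) = 0 := by simp [wgt]
  rw [h4, add_zero]
  set s := Real.sqrt l with hs
  have hs0 : 0 < s := Real.sqrt_pos.2 hl
  have hs2 : s ^ 2 = l := Real.sq_sqrt hl.le
  have h5 : ∀ n : ℕ, ({k ∈ F | N k = n + 1}.card • wgt l (n + 1) : ℝ)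
      ≤ 26 * (1 / (s ^ 2 + ((n : ℝ) + 1) ^ 2)) := by
    intro n
    have e : wgt l (n + 1) = 1 / (((n : ℝ) + 1) ^ 2 * (s ^ 2 + ((n : ℝ) + 1) ^ 2)) := by
      unfold wgt
      rw [if_neg (Nat.succ_ne_zero n), hs2]
      push_cast
      congr 1
      ring
    rw [nsmul_eq_mul, e]
    have h6 := card_shell F n
    calc ({k ∈ F | N k = n + 1}.card : ℝ) * (1 / (((n : ℝ) + 1) ^ 2 * (s ^ 2 + ((n : ℝ) + 1) ^ 2)))
        ≤ 26 * ((n : ℝ) + 1) ^ 2 * (1 / (((n : ℝ) + 1) ^ 2 * (s ^ 2 + ((n : ℝ) + 1) ^ 2))) := by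
          gcongr
      _ = _ := by
        field_simp
  refine (Finset.sum_le_sum fun n _ => h5 n).trans ?_
  rw [← Finset.mul_sum]
  have h6 := tele hs0 (R + 1)
  have h7 : 0 ≤ 1 / (s + ((R + 1 : ℕ) : ℝ)) := by positivity
  have h8 : 2 * (1 / s - 1 / (s + ((R + 1 : ℕ) : ℝ))) ≤ 2 * (1 / s) := by linarith
  have h9 : 52 / s = 26 * (2 * (1 / s)) := by ring
  rw [h9]
  linarith

section

variable {f : V → ℝ} (hf : SP f) (h0 : ∫ x in cube, f x = 0)

omit hf in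
include h0 in
theorem fr_zero' : fr f 0 = 0 := by
  unfold fr fc
  have e : ∀ x : V, ee (-(0 : K3)) x * (f x : ℂ) = (f x : ℂ) := by
    intro x
    have : ee (-(0 : K3)) x = 1 := by
      unfold ee ph
      simp
    rw [this, one_mul]
  simp_rw [e]
  rw [integral_complex_ofReal, h0]
  simp

include hf in
theorem N2_le (k : K3) : (N k : ℝ) ^ 2 * ‖fr f k‖ ≤ ‖fr (lap f) k‖ := by
  have e1 : fr (lap f) k = -(((2 * Real.pi) ^ 2 * ∑ j, (k j : ℝ) ^ 2 : ℝ) : ℂ) * fr f k := by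
    unfold lap
    rw [fr_sum fun j _ => (hf.pd j).pd j]
    push_cast
    rw [Finset.mul_sum, ← Finset.sum_neg_distrib, Finset.sum_mul]
    refine Finset.sum_congr rfl fun j _ => ?_
    rw [fr_pd (hf.pd j), fr_pd hf, D, D]
    have := Complex.I_sq
    linear_combination ((2 * Real.pi : ℂ) ^ 2 * (k j : ℂ) ^ 2 * fr f k) * this
  rw [e1, norm_mul, norm_neg, Complex.norm_real, Real.norm_eq_abs, abs_of_nonneg (by positivity)]
  refine mul_le_mul_of_nonneg_right ?_ (norm_nonneg _)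
  have a1 := N_sq_le k
  have a2 : (1 : ℝ) ≤ (2 * Real.pi) ^ 2 := by nlinarith [Real.pi_gt_three]
  have a3 : (0 : ℝ) ≤ ∑ j, (k j : ℝ) ^ 2 := by positivity
  nlinarith

include hf in
theorem N1_le (k : K3) : (N k : ℝ) ^ 2 * ‖fr f k‖ ^ 2 ≤ ∑ j, ‖fr (pd j f) k‖ ^ 2 := by
  have e1 : ∀ j, ‖fr (pd j f) k‖ ^ 2 = (2 * Real.pi) ^ 2 * ((k j : ℝ) ^ 2 * ‖fr f k‖ ^ 2) := by
    intro j
    rw [fr_pd hf, D, norm_mul, norm_mul, norm_mul, norm_mul, Complex.norm_I, Complex.norm_real,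
      Complex.norm_ofNat, Complex.norm_intCast, Real.norm_eq_abs, abs_of_pos Real.pi_pos, mul_pow,
      mul_pow, sq_abs, mul_one]
    ring
  simp_rw [e1]
  rw [← Finset.mul_sum, ← Finset.sum_mul]
  have a1 := N_sq_le k
  have a2 : (1 : ℝ) ≤ (2 * Real.pi) ^ 2 := by nlinarith [Real.pi_gt_three]
  have a3 : (0 : ℝ) ≤ ∑ j, (k j : ℝ) ^ 2 := by positivity
  have a4 : (0 : ℝ) ≤ ‖fr f k‖ ^ 2 := by positivity
  calc (N k : ℝ) ^ 2 * ‖fr f k‖ ^ 2 ≤ (∑ j, (k j : ℝ) ^ 2) * ‖fr f k‖ ^ 2 := by gcongr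
    _ = 1 * ((∑ j, (k j : ℝ) ^ 2) * ‖fr f k‖ ^ 2) := (one_mul _).symm
    _ ≤ _ := by gcongr

include hf h0 in
theorem agmon_l {l : ℝ} (hl : 0 < l) (x : V) :
    f x ^ 2 ≤ 52 / Real.sqrt l * (l * grd f ^ 2 + nrm (lap f) ^ 2) := by
  have hr := rap_fr hf
  have hK0 : 0 ≤ 52 / Real.sqrt l * (l * grd f ^ 2 + nrm (lap f) ^ 2) := by positivity
  have h1 : |f x| ≤ ∑' k, ‖fr f k‖ := by
    have := norm_S_le hr.summable x
    rwa [S_fr hf, Complex.norm_real, Real.norm_eq_abs] at this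
  have h2 : ∑' k, ‖fr f k‖ ≤ Real.sqrt (52 / Real.sqrt l * (l * grd f ^ 2 + nrm (lap f) ^ 2)) := by
    refine hr.summable.norm.tsum_le_of_sum_le fun F => ?_
    refine Real.le_sqrt_of_sq_le ?_
    have c1 := Finset.sum_mul_sq_le_sq_mul_sq F (fun k => Real.sqrt (wgt l (N k)))
      (fun k => Real.sqrt (l * (N k : ℝ) ^ 2 + (N k : ℝ) ^ 4) * ‖fr f k‖)
    have c2 : ∀ k, Real.sqrt (wgt l (N k)) * (Real.sqrt (l * (N k : ℝ) ^ 2 + (N k : ℝ) ^ 4)
        * ‖fr f k‖) = ‖fr f k‖ := by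
      intro k
      by_cases hk : N k = 0
      · have : k = 0 := N_eq_zero.1 hk
        rw [this, fr_zero' h0]
        simp
      · unfold wgt
        rw [if_neg hk, ← mul_assoc, ← Real.sqrt_mul (by positivity), one_div_mul_cancel,
          Real.sqrt_one, one_mul]
        have : (0 : ℝ) < N k := by exact_mod_cast Nat.pos_of_ne_zero hk
        positivity
    simp_rw [c2] at c1
    refine c1.trans ?_
    have c3 : ∑ k ∈ F, Real.sqrt (wgt l (N k)) ^ 2 ≤ 52 / Real.sqrt l := by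
      have : ∀ k, Real.sqrt (wgt l (N k)) ^ 2 = wgt l (N k) := fun k =>
        Real.sq_sqrt (wgt_nonneg hl.le _)
      simp_rw [this]
      exact lat hl F
    have c4 : ∑ k ∈ F, (Real.sqrt (l * (N k : ℝ) ^ 2 + (N k : ℝ) ^ 4) * ‖fr f k‖) ^ 2
        ≤ l * grd f ^ 2 + nrm (lap f) ^ 2 := by
      have d1 : ∀ k, (Real.sqrt (l * (N k : ℝ) ^ 2 + (N k : ℝ) ^ 4) * ‖fr f k‖) ^ 2
          ≤ l * (∑ j, ‖fr (pd j f) k‖ ^ 2) + ‖fr (lap f) k‖ ^ 2 := by
        intro k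
        rw [mul_pow, Real.sq_sqrt (by positivity), add_mul]
        have e1 := N1_le hf k
        have e2 := N2_le hf k
        have e3 : (N k : ℝ) ^ 4 * ‖fr f k‖ ^ 2 ≤ ‖fr (lap f) k‖ ^ 2 := by
          calc (N k : ℝ) ^ 4 * ‖fr f k‖ ^ 2 = ((N k : ℝ) ^ 2 * ‖fr f k‖) ^ 2 := by ring
            _ ≤ _ := pow_le_pow_left₀ (by positivity) e2 2
        have e4 : l * (N k : ℝ) ^ 2 * ‖fr f k‖ ^ 2 = l * ((N k : ℝ) ^ 2 * ‖fr f k‖ ^ 2) := by ring
        rw [e4]
        gcongr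
      refine (Finset.sum_le_sum fun k _ => d1 k).trans ?_
      rw [Finset.sum_add_distrib, ← Finset.mul_sum, Finset.sum_comm]
      have d2 : ∑ k ∈ F, ‖fr (lap f) k‖ ^ 2 ≤ nrm (lap f) ^ 2 := by
        rw [nrm_sq, ← n2_fr hf.lap, n2_sq]
        exact (summable_sq (rap_fr hf.lap).summable).sum_le_tsum F fun _ _ => sq_nonneg _
      have d3 : ∑ j, ∑ k ∈ F, ‖fr (pd j f) k‖ ^ 2 ≤ grd f ^ 2 := by
        rw [grd_sq]
        refine Finset.sum_le_sum fun j _ => ?_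
        rw [← n2_fr (hf.pd j), n2_sq]
        exact (summable_sq (rap_fr (hf.pd j)).summable).sum_le_tsum F fun _ _ => sq_nonneg _
      gcongr
    exact mul_le_mul c3 c4 (Finset.sum_nonneg fun _ _ => sq_nonneg _) (by positivity)
  have h3 := h1.trans h2
  rw [← sq_abs]
  calc |f x| ^ 2 ≤ Real.sqrt (52 / Real.sqrt l * (l * grd f ^ 2 + nrm (lap f) ^ 2)) ^ 2 :=
        pow_le_pow_left₀ (abs_nonneg _) h3 2
    _ = _ := Real.sq_sqrt hK0

include hf h0 in
/-- **Agmon's inequality.** -/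
theorem agmon (x : V) : f x ^ 2 ≤ 104 * (grd f * nrm (lap f)) := by
  set G := grd f with hG
  set H := nrm (lap f) with hH
  have hG0 : 0 ≤ G := grd_nonneg _
  have hH0 : 0 ≤ H := nrm_nonneg _
  rcases hG0.eq_or_lt with hGz | hGp
  · -- `G = 0`
    rw [← hGz, zero_mul, mul_zero]
    have key : ∀ s : ℝ, 0 < s → f x ^ 2 ≤ 52 * H ^ 2 / s := by
      intro s hs
      have h1 := agmon_l hf h0 (l := s ^ 2) (by positivity) x
      rw [Real.sqrt_sq hs.le, ← hG, ← hGz] at h1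
      refine h1.trans (le_of_eq ?_)
      rw [← hH]
      ring
    have hlim : Tendsto (fun s : ℝ => 52 * H ^ 2 / s) atTop (𝓝 0) :=
      tendsto_const_nhds.div_atTop tendsto_id
    exact ge_of_tendsto hlim (by
      filter_upwards [eventually_gt_atTop 0] with s hs
      exact key s hs)
  · have hGH : G ≤ H := by
      have h1 := poincare hf h0
      have h2 : G ^ 2 ≤ H * G := by
        rw [hG, grd_sq]
        have h3 := int_lap_mul hf hf
        have h4 : ∑ j, ∫ x in cube, pd j f x ^ 2 = -∫ x in cube, lap f x * f x := by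
          rw [h3, neg_neg]
          refine Finset.sum_congr rfl fun j _ => ?_
          congr 1
          funext y
          ring
        rw [h4]
        have h5 := abs_int_mul_le hf.lap.cont hf.cont
        have h6 := (abs_le.1 h5).1
        have h7 : nrm (lap f) * nrm f ≤ H * G := mul_le_mul_of_nonneg_left h1 (nrm_nonneg _)
        linarith
      have h8 : G * G ≤ H * G := by rw [← sq]; exact h2
      exact le_of_mul_le_mul_right h8 hGp
    have hHp : 0 < H := hGp.trans_le hGH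
    have h1 := agmon_l hf h0 (l := (H / G) ^ 2) (by positivity) x
    rw [Real.sqrt_sq (by positivity), ← hG, ← hH] at h1
    refine h1.trans (le_of_eq ?_)
    field_simp
    ring

end

end Pool.Agent.Q177.ML
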