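import Pool.Agent.Q177.ML.Prod

/-!
The criterion: means of the vortex stretching over segments of integral curves.
-/

open MeasureTheory Set Filter Topology
open scoped ContDiff ENNReal NNReal
open H459R3.NS Pool.Agent.W268.NS Pool.Agent.GR.Flow Pool.Agent.TH811.SPD

namespace Pool.Agent.Q177.ML

/-- the production of enstrophy is bounded at each time -/
theorem prod_any {c : ℝ} (hc : 0 < c) {v : V → V} (hv : ∀ i, SP (fun y => v y i)) :
    ∃ D : ℝ, 0 ≤ D ∧ -(2 * cub (fun i x => v x i)) ≤ c * palin v + D * enstrophy v := by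
  obtain ⟨B, hB⟩ := per_bound (v_per hv) (v_smooth hv).continuous
  set G := Real.sqrt (enstrophy v) with hG
  set H := Real.sqrt (palin v) with hH
  have hG2 : G ^ 2 = enstrophy v := Real.sq_sqrt (enstrophy_nonneg _)
  have hH2 : H ^ 2 = palin v := Real.sq_sqrt (palin_nonneg _)
  have ha : GH2 (fun i x => v x i) G H :=
    ⟨hv, Real.sqrt_nonneg _, Real.sqrt_nonneg _, hG2.symm.le, hH2.symm.le⟩
  have h1 := abs_C3_1 (s := fun i x => v x i) (b := fun i x => v x i) (c := fun i x => v x i)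
    (β := B) hv (fun i x => ((norm_le_pi_norm (v x) i).trans (hB x))) ha.gh ha.gh
  rw [← cub_eq] at h1
  have h2 := (abs_le.1 h1).1
  refine ⟨(54 * (B : ℝ)) ^ 2 / c, by positivity, ?_⟩
  rw [← hG2, ← hH2]
  have h3 : 108 * ((B : ℝ) * (G * H)) ≤ c * H ^ 2 + (54 * (B : ℝ)) ^ 2 / c * G ^ 2 := by
    have h4 : 0 ≤ (c * H - 54 * B * G) ^ 2 / c := by positivity
    have h5 : (c * H - 54 * B * G) ^ 2 / c
        = c * H ^ 2 + (54 * (B : ℝ)) ^ 2 / c * G ^ 2 - 108 * ((B : ℝ) * (G * H)) := by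
      field_simp
      ring
    linarith
  nlinarith

/-- The hypothesis on segments at a given time. -/
def SegCond (p : ℝ≥0∞) (κ ν a β b : ℝ) (v : V → V) : Prop :=
  ∃ (f₁ f₂ K ψ : V → ℝ) (w : V → V),
    Measurable f₁ ∧ Per f₁ ∧ eLpNorm f₁ p (volume.restrict cube) ≤ ENNReal.ofReal β ∧
    Measurable f₂ ∧ Per f₂ ∧ IntegrableOn f₂ cube ∧ FormBound a b f₂ ∧
    Measurable K ∧ IntegrableOn (fun x => K (v x) * (gradM v x).det) cube ∧
    SP ψ ∧ SPV w ∧ (∀ x, ∑ i, pd i (fun y => w y i) x = 0) ∧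
    ∀ᵐ x ∂(volume.restrict cube), ∃ X : ℝ → V, X 0 = x ∧ (∀ r, HasDerivAt X (w (X r)) r) ∧
      ∀ ε : ℝ, 0 < ε → ∃ R : ℝ, 0 < R ∧
        ∫ r in Ioo 0 R, exc κ ν (fun y => f₁ y + f₂ y) K v (X r) ≤ ψ (X R) - ψ x + ε * R

theorem criterion {p : ℝ≥0∞} (hp : 3 / 2 < p) {q : ℝ} (hpq : 3 * (p⁻¹).toReal + 2 / q = 2)
    {ν κ δ : ℝ} (hν : 0 < ν) (hκδ : κ + δ < 1) :
    ∃ C : ℝ, 0 ≤ C ∧ ∀ (T : ℝ) (u : ℝ → V → V) (P : ℝ → V → ℝ) (β γ : ℝ → ℝ), IsSol ν T u P →
      IntegrableOn (fun t => β t ^ q) (Ioo 0 T) → IntegrableOn γ (Ioo 0 T) →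
      (∀ᵐ t ∂(volume.restrict (Ioo 0 T)), 0 ≤ β t ∧ 0 ≤ γ t ∧
        SegCond p κ ν (δ * ν) (β t) (γ t) (u t)) →
      (∀ t ∈ Ico 0 T, enstrophy (u t) ≤ enstrophy (u 0) * Real.exp
        (C * (∫ τ in Ioo 0 T, β τ ^ q) + 2 * ∫ τ in Ioo 0 T, γ τ)) ∧
      ∃ M, ∀ t ∈ Ico 0 T, ∀ x i, |u t x i| ≤ M := by
  set θ := th p with hθ
  have hθ0 : 0 ≤ θ := th_nonneg p
  have hθ2 : θ < 2 := th_lt_two hp
  have hq : q = 2 / (2 - θ) := by
    have h1 : 2 / q = 2 - θ := by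
      have : θ = 3 * (p⁻¹).toReal := rfl
      rw [this]
      linarith
    rw [← h1]
    have : q ≠ 0 := by
      intro h0
      rw [h0, div_zero] at h1
      linarith
    field_simp
  obtain ⟨C0, hC00, hC0⟩ := prod_seg hp
  set κ₀ := max (κ + δ) (1 / 2) with hκ₀
  have hκ1 : κ₀ < 1 := max_lt hκδ (by norm_num)
  have hκ2 : κ + δ ≤ κ₀ := le_max_left _ _
  have hκ3 : 1 / 2 ≤ κ₀ := le_max_right _ _
  have hδ : 0 < 1 - κ₀ := by linarith
  obtain ⟨D1, hD10, hD1⟩ := young2 (θ := θ) (ε := (1 - κ₀) * ν) (c := 2 * C0) hθ0 hθ2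
    (by positivity) (by positivity)
  refine ⟨D1, hD10, fun T u P β γ h hβi hγi hcomp => ?_⟩
  set y : ℝ → ℝ := fun s => enstrophy (u s) with hy
  have hy0 : ∀ s, 0 ≤ y s := fun s => enstrophy_nonneg _
  set g : ℝ → ℝ := fun s => D1 * β s ^ q + 2 * γ s with hg
  -- the inequality at almost all times
  have hae : ∀ᵐ t ∂(volume.restrict (Ioo 0 T)), 0 ≤ g t ∧
      -(2 * cub (fun i x => u t x i)) ≤ (2 - (1 - κ₀)) * (ν * palin (u t)) + g t * y t := by
    filter_upwards [hcomp, ae_restrict_mem measurableSet_Ioo] with t ht hτ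
    obtain ⟨hβ0, hγ0, f₁, f₂, K, ψ, w, c1, c2, c3, c4, c5, c6, c7, c8, c9, c10, c11, c12, c13⟩ := ht
    have hI : t ∈ Ico 0 T := ⟨hτ.1.le, hτ.2⟩
    refine ⟨add_nonneg (mul_nonneg hD10 (Real.rpow_nonneg hβ0 _)) (by positivity), ?_⟩
    set G := Real.sqrt (y t) with hG
    set H := Real.sqrt (palin (u t)) with hH
    have hG2 : G ^ 2 = y t := Real.sq_sqrt (hy0 t)
    have hH2 : H ^ 2 = palin (u t) := Real.sq_sqrt (palin_nonneg _)
    have hG0 : 0 ≤ G := Real.sqrt_nonneg _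
    have hH0 : 0 ≤ H := Real.sqrt_nonneg _
    have ha : GH2 (fun i x => u t x i) G H :=
      ⟨fun i => h.sp hI i, hG0, hH0, hG2.symm.le, hH2.symm.le⟩
    have hprod := hC0 (u t) f₁ f₂ K ψ w (β t) (γ t) (δ * ν) κ ν G H ha (h.divfree t hI) hβ0
      c1 c2 c3 c4 c5 c6 c7 c8 c9 c10 c11 c12 c13
    have hY1 := hD1 (β t) G H hβ0 hG0 hH0
    have h8 : g t * y t = D1 * (β t ^ (2 / (2 - θ)) * G ^ 2) + 2 * γ t * y t := by
      simp only [hg]
      rw [← hG2, hq]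
      ring
    rw [h8]
    have h9 : (κ + δ) * (ν * palin (u t)) ≤ κ₀ * (ν * palin (u t)) :=
      mul_le_mul_of_nonneg_right hκ2 (mul_nonneg hν.le (palin_nonneg _))
    have h10 : (1 - κ₀) * ν * H ^ 2 = (1 - κ₀) * (ν * palin (u t)) := by rw [hH2]; ring
    rw [h10] at hY1
    have h11 : enstrophy (u t) = y t := rfl
    rw [h11] at hprod
    nlinarith
  -- the inequality at all times
  have hany : ∀ t, ∃ D : ℝ, 0 ≤ D ∧ (t ∈ Ioo 0 T →
      -(2 * cub (fun i x => u t x i)) ≤ (2 - (1 - κ₀)) * (ν * palin (u t)) + D * y t) := by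
    intro t
    by_cases ht : t ∈ Ioo 0 T
    · have hc : 0 < (2 - (1 - κ₀)) * ν := by
        have : 0 < 2 - (1 - κ₀) := by linarith
        positivity
      obtain ⟨D, hD, h1⟩ := prod_any hc (v := u t) fun i => h.sp ⟨ht.1.le, ht.2⟩ i
      exact ⟨D, hD, fun _ => by rw [← mul_assoc]; exact h1⟩
    · exact ⟨0, le_rfl, fun h => absurd h ht⟩
  choose Dt hDt0 hDt using hany
  classical
  set g' : ℝ → ℝ := fun t => if (0 ≤ g t ∧
      -(2 * cub (fun i x => u t x i)) ≤ (2 - (1 - κ₀)) * (ν * palin (u t)) + g t * y t)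
    then g t else Dt t with hg'
  have hg'0 : ∀ t, 0 ≤ g' t := by
    intro t
    simp only [hg']
    split_ifs with h1
    · exact h1.1
    · exact hDt0 t
  have hg'ae : g' =ᵐ[volume.restrict (Ioo 0 T)] g := by
    filter_upwards [hae] with t ht
    simp only [hg']
    rw [if_pos ht]
  have hgi : IntegrableOn g (Ioo 0 T) := (hβi.const_mul D1).add (hγi.const_mul 2)
  have hg'i : IntegrableOn g' (Ioo 0 T) := hgi.congr hg'ae.symm
  refine h.gron hν (g := g') hδ (fun s _ => hg'0 s) (fun t ht => ?_) (fun t ht => ?_)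
    (fun t ht => ?_)
  · rw [integrableOn_Icc_iff_integrableOn_Ioc, integrableOn_Ioc_iff_integrableOn_Ioo]
    exact hg'i.mono_set (Ioo_subset_Ioo_right ht.2.le)
  · rw [intervalIntegral.integral_of_le ht.1, integral_Ioc_eq_integral_Ioo]
    have a1 : ∫ s in Ioo 0 t, g' s ≤ ∫ s in Ioo 0 T, g' s :=
      setIntegral_mono_set hg'i (ae_of_all _ hg'0) (Ioo_subset_Ioo_right ht.2.le).eventuallyLE
    refine a1.trans (le_of_eq ?_)
    rw [integral_congr_ae hg'ae]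
    simp only [hg]
    rw [integral_add (hβi.const_mul D1) (hγi.const_mul 2), integral_const_mul,
      integral_const_mul]
  · show -(2 * cub (fun i x => u t x i)) ≤ (2 - (1 - κ₀)) * (ν * palin (u t)) + g' t * y t
    simp only [hg']
    split_ifs with h1
    · exact h1.2
    · exact hDt t ht

end Pool.Agent.Q177.ML
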