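import Pool.Agent.TH811.SPD.Str2

/-!
A maximal ergodic theorem for the flow of a smooth periodic divergence-free vector field: if almost
every point is the starting point of a segment of an integral curve on which the mean of an
integrable periodic function `k` is at most `ε`, for every `ε > 0`, then `∫ k ≤ 0`.
-/

open MeasureTheory Set Filter Topology
open scoped ContDiff ENNReal NNReal
open H459R3.NS Pool.Agent.W268.NS Pool.Agent.GR.Flow Pool.Agent.TH811.SPD

namespace Pool.Agent.Q177.ML

section

variable {v : V → V} (hv : ∀ i, SP (fun y => v y i))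
  (hdiv : ∀ x, ∑ i, pd i (fun y => v y i) x = 0) {g : ℝ → V → V} (hg : IsFlowOf v g)

/-- the integral over the first segment of length `h` -/
noncomputable def seg (g : ℝ → V → V) (w : V → ℝ) (h : ℝ) (x : V) : ℝ :=
  ∫ r in Ioo 0 h, w (g r x)

/-- maximum of the integrals over the first `n` segments, `n ≤ N` -/
noncomputable def mx (g : ℝ → V → V) (w : V → ℝ) (h : ℝ) : ℕ → V → ℝ
  | 0 => fun _ => 0
  | N + 1 => fun x => max 0 (seg g w h x + mx g w h N (g h x))

theorem mx_nonneg (w : V → ℝ) (h : ℝ) (N : ℕ) (x : V) : 0 ≤ mx g w h N x := by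
  cases N with
  | zero => exact le_rfl
  | succ N => exact le_max_left _ _

theorem mx_mono (w : V → ℝ) (h : ℝ) (N : ℕ) (x : V) : mx g w h N x ≤ mx g w h (N + 1) x := by
  induction N generalizing x with
  | zero => exact mx_nonneg _ _ _ _
  | succ N ih =>
    show max 0 (seg g w h x + mx g w h N (g h x)) ≤ max 0 (seg g w h x + mx g w h (N + 1) (g h x))
    exact max_le_max le_rfl (by linarith [ih (g h x)])

include hv hg in
theorem seg_meas {w : V → ℝ} (hw : Measurable w) (h : ℝ) : Measurable (seg g w h) := by
  have h1 : StronglyMeasurable (fun p : V × ℝ => w (g p.2 p.1)) :=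
    ((meas_flow hv hg hw).comp measurable_swap).stronglyMeasurable
  exact (h1.integral_prod_right (ν := volume.restrict (Ioo 0 h))).measurable

include hv hg in
theorem seg_per {w : V → ℝ} (hp : Per w) (h : ℝ) : Per (seg g w h) := by
  intro i x
  unfold seg
  congr 1
  funext r
  rw [flow_per hv hg, hp]

include hv hg in
theorem mx_meas {w : V → ℝ} (hw : Measurable w) (h : ℝ) (N : ℕ) : Measurable (mx g w h N) := by
  induction N with
  | zero => exact measurable_const
  | succ N ih =>
    exact measurable_const.max ((seg_meas hv hg hw h).add (ih.comp (flow_cont hv hg h).measurable))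

include hv hg in
theorem mx_per {w : V → ℝ} (hp : Per w) (h : ℝ) (N : ℕ) : Per (mx g w h N) := by
  induction N with
  | zero => exact fun _ _ => rfl
  | succ N ih =>
    intro i x
    show max 0 (seg g w h (x + _) + mx g w h N (g h (x + _))) = max 0 (seg g w h x + _)
    rw [seg_per hv hg hp, flow_per hv hg, ih]

include hv hg hdiv in
theorem mx_int {w : V → ℝ} (hw : Measurable w) (hp : Per w) (hi : IntegrableOn w cube) {h : ℝ}
    (hh : 0 ≤ h) (N : ℕ) : IntegrableOn (mx g w h N) cube := by
  induction N with
  | zero => exact integrableOn_zero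
  | succ N ih =>
    have h1 : IntegrableOn (seg g w h) cube := (int_prod_flow hv hdiv hg hw hp hi hh).1
    have h2 := integrable_flow hv hdiv hg (mx_meas hv hg hw h N) (mx_per hv hg hp h N) ih h
    exact (integrable_zero _ _ _).sup (h1.add h2)

include hv hg hdiv in
/-- Garsia's inequality -/
theorem garsia {w : V → ℝ} (hw : Measurable w) (hp : Per w) (hi : IntegrableOn w cube) {h : ℝ}
    (hh : 0 ≤ h) (N : ℕ) :
    0 ≤ ∫ x in cube, {x | 0 < mx g w h N x}.indicator (seg g w h) x := by
  cases N with
  | zero =>
    have : {x : V | 0 < mx g w h 0 x} = ∅ := by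
      ext x; simp [mx]
    rw [this]; simp
  | succ N =>
    have hm := mx_meas hv hg hw h (N + 1)
    have hpr := mx_per hv hg hp h (N + 1)
    have hii := mx_int hv hdiv hg hw hp hi hh (N + 1)
    have h1 : IntegrableOn (seg g w h) cube := (int_prod_flow hv hdiv hg hw hp hi hh).1
    have h2 := integrable_flow hv hdiv hg hm hpr hii h
    have hE : MeasurableSet {x | 0 < mx g w h (N + 1) x} := measurableSet_lt measurable_const hm
    have e0 : ∫ x in cube, (mx g w h (N + 1) x - mx g w h (N + 1) (g h x)) = 0 := by
      rw [integral_sub hii h2, integral_flow hv hdiv hg hm hpr h, sub_self]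
    refine (le_of_eq e0.symm).trans (integral_mono (hii.sub h2) (h1.indicator hE) fun x => ?_)
    show mx g w h (N + 1) x - mx g w h (N + 1) (g h x) ≤ _
    by_cases hx : 0 < mx g w h (N + 1) x
    · rw [indicator_of_mem (show x ∈ {x | 0 < mx g w h (N + 1) x} from hx)]
      have e : mx g w h (N + 1) x = max 0 (seg g w h x + mx g w h N (g h x)) := rfl
      have e2 : mx g w h (N + 1) x = seg g w h x + mx g w h N (g h x) := by
        rw [e] at hx ⊢
        rcases lt_max_iff.1 hx with h' | h'
        · exact absurd h' (lt_irrefl _)
        · exact max_eq_right h'.le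
      have := mx_mono (g := g) w h N (g h x)
      linarith
    · rw [indicator_of_notMem (show x ∉ {x | 0 < mx g w h (N + 1) x} from hx)]
      have := mx_nonneg (g := g) w h (N + 1) (g h x)
      linarith [not_lt.1 hx]

/-- the good points: integrable along the orbit -/
def Good (g : ℝ → V → V) (w : V → ℝ) (x : V) : Prop :=
  ∀ T : ℝ, IntegrableOn (fun t => w (g t x)) (Ioo 0 T)

include hv hg hdiv in
theorem ae_good {w : V → ℝ} (hw : Measurable w) (hp : Per w) (hi : IntegrableOn w cube) :
    ∀ᵐ x ∂(volume.restrict cube), Good g w x := by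
  have h1 : ∀ n : ℕ, ∀ᵐ x ∂(volume.restrict cube), IntegrableOn (fun t => w (g t x)) (Ioo 0 (n : ℝ)) :=
    fun n => (int_prod_flow hv hdiv hg hw hp hi (Nat.cast_nonneg n)).2.1
  filter_upwards [ae_all_iff.2 h1] with x hx
  intro T
  obtain ⟨n, hn⟩ := exists_nat_ge T
  exact (hx n).mono_set (Ioo_subset_Ioo_right hn)

include hv hg in
theorem Good.shift {w : V → ℝ} {x : V} (hx : Good g w x) {h : ℝ} (hh : 0 ≤ h) :
    Good g w (g h x) := by
  intro T
  have h1 := hx (T + h)
  have e : (fun t => w (g t (g h x))) = fun t => w (g (t + h) x) := by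
    funext t; rw [flow_add hv hg]
  rw [e]
  have h2 : IntegrableOn (fun t => w (g t x)) (Ioo h (T + h)) :=
    h1.mono_set (Ioo_subset_Ioo_left hh)
  have h3 := (measurePreserving_add_right volume h).integrableOn_comp_preimage
    (MeasurableEquiv.addRight h).measurableEmbedding (s := Ioo h (T + h))
    (f := fun t => w (g t x))
  have h4 := h3.2 h2
  have e2 : (fun t : ℝ => t + h) ⁻¹' Ioo h (T + h) = Ioo 0 T := by
    ext t; simp
  rw [e2] at h4
  exact h4

theorem Good.split {w : V → ℝ} {x : V} (hx : Good g w x) {a b : ℝ} (ha : 0 ≤ a) (hab : a ≤ b) :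
    seg g w b x = seg g w a x + ∫ r in Ioo a b, w (g r x) := by
  unfold seg
  have hb := hx b
  have e : ∀ c d : ℝ, c ≤ d → ∫ r in Ioo c d, w (g r x) = ∫ r in c..d, w (g r x) := by
    intro c d hcd
    rw [intervalIntegral.integral_of_le hcd, integral_Ioc_eq_integral_Ioo]
  have hI : ∀ c d : ℝ, 0 ≤ c → c ≤ d → d ≤ b → IntervalIntegrable (fun r => w (g r x)) volume c d := by
    intro c d hc hcd hd
    rw [intervalIntegrable_iff_integrableOn_Ioo_of_le hcd]
    exact hb.mono_set (Ioo_subset_Ioo hc hd)
  rw [e 0 b (ha.trans hab), e 0 a ha, e a b hab,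
    intervalIntegral.integral_add_adjacent_intervals (hI 0 a le_rfl ha hab) (hI a b ha hab le_rfl)]

include hv hg in
theorem seg_le_mx {w : V → ℝ} {h : ℝ} (hh : 0 ≤ h) (n : ℕ) {x : V} (hx : Good g w x) :
    seg g w (n * h) x ≤ mx g w h n x := by
  induction n generalizing x with
  | zero => simp [seg, mx]
  | succ n ih =>
    have h1 : seg g w ((n + 1 : ℕ) * h) x = seg g w h x + seg g w (n * h) (g h x) := by
      have h2 := hx.split (a := h) (b := (n + 1 : ℕ) * h) hh (by
        push_cast
        nlinarith [(Nat.cast_nonneg n : (0 : ℝ) ≤ n)])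
      rw [h2]
      congr 1
      unfold seg
      have e : (fun t => w (g t (g h x))) = fun t => w (g (t + h) x) := by
        funext t; rw [flow_add hv hg]
      rw [e]
      have h3 := (measurePreserving_add_right volume h).setIntegral_preimage_emb
        (MeasurableEquiv.addRight h).measurableEmbedding (fun t => w (g t x))
        (Ioo h ((n + 1 : ℕ) * h))
      rw [← h3]
      congr 2
      ext t
      simp only [mem_preimage, mem_Ioo]
      constructor
      · rintro ⟨h4, h5⟩
        push_cast at h5
        exact ⟨by linarith, by linarith⟩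
      · rintro ⟨h4, h5⟩
        push_cast
        exact ⟨by linarith, by linarith⟩
    rw [h1]
    refine le_trans ?_ (le_max_right _ _)
    have := ih (x := g h x) (hx.shift hv hg hh)
    linarith

theorem mx_mono_le (w : V → ℝ) (h : ℝ) {m n : ℕ} (hmn : m ≤ n) (x : V) :
    mx g w h m x ≤ mx g w h n x :=
  monotone_nat_of_le_succ (f := fun n => mx g w h n x) (fun n => mx_mono w h n x) hmn

include hv hg hdiv in
/-- the theorem for functions bounded below -/
theorem seg_pos {w : V → ℝ} (hw : Measurable w) (hp : Per w) (hi : IntegrableOn w cube) {C : ℝ}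
    (hC0 : 0 ≤ C) (hC : ∀ x, -C ≤ w x)
    (h : ∀ᵐ x ∂(volume.restrict cube), ∃ R : ℝ, 0 < R ∧ 0 < seg g w R x) :
    0 ≤ ∫ x in cube, w x := by
  have hfin := cube_finite
  -- the steps
  set η : ℕ → ℝ := fun j => 1 / ((j : ℝ) + 1) with hη
  have hη0 : ∀ j, 0 < η j := fun j => by simp only [hη]; positivity
  set E : ℕ → Set V := fun j => {x | ¬ 0 < mx g w (η j) ((j + 1) ^ 2) x} with hE
  have hEm : ∀ j, MeasurableSet (E j) := fun j =>
    (measurableSet_lt measurable_const (mx_meas hv hg hw _ _)).compl
  -- the bound
  have hb : ∀ j, -(C * (volume.restrict cube).real (E j)) ≤ ∫ x in cube, w x := by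
    intro j
    have h1 := garsia hv hdiv hg hw hp hi (hη0 j).le ((j + 1) ^ 2)
    have h2 := int_prod_flow hv hdiv hg hw hp hi (hη0 j).le
    have i1 : IntegrableOn (seg g w (η j)) cube := h2.1
    have h3 : ∫ x in cube, seg g w (η j) x = η j * ∫ x in cube, w x := h2.2.2
    have h4 : ∫ x in cube, seg g w (η j) x
        = (∫ x in cube, {x | 0 < mx g w (η j) ((j + 1) ^ 2) x}.indicator (seg g w (η j)) x)
          + ∫ x in cube, (E j).indicator (seg g w (η j)) x := by
      have hEc : {x | 0 < mx g w (η j) ((j + 1) ^ 2) x} = (E j)ᶜ := by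
        ext x; simp [hE]
      rw [hEc, integral_indicator (hEm j).compl, integral_indicator (hEm j), add_comm,
        integral_add_compl (hEm j) i1]
    have h5 : -(C * η j) * (volume.restrict cube).real (E j)
        ≤ ∫ x in cube, (E j).indicator (seg g w (η j)) x := by
      rw [integral_indicator (hEm j)]
      have h6 : ∫ _ in E j, -(C * η j) ∂(volume.restrict cube)
          = -(C * η j) * (volume.restrict cube).real (E j) := by
        rw [setIntegral_const, smul_eq_mul, mul_comm]
      rw [← h6]
      refine integral_mono_ae (integrable_const _) i1.integrableOn ?_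
      refine Eventually.filter_mono (ae_mono Measure.restrict_le_self) ?_
      filter_upwards [ae_good hv hdiv hg hw hp hi] with x hx
      show -(C * η j) ≤ seg g w (η j) x
      have h7 : ∫ _ in Ioo 0 (η j), -C = -(C * η j) := by
        rw [setIntegral_const, Real.volume_real_Ioo_of_le (hη0 j).le, smul_eq_mul]
        ring
      rw [← h7]
      refine integral_mono (integrable_const _) (hx _) fun r => hC _
    have h8 : η j * -(C * (volume.restrict cube).real (E j)) ≤ η j * ∫ x in cube, w x := by
      rw [← h3, h4]
      have : -(C * η j) * (volume.restrict cube).real (E j)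
        = η j * -(C * (volume.restrict cube).real (E j)) := by ring
      linarith
    exact le_of_mul_le_mul_left h8 (hη0 j)
  -- the measures of the exceptional sets tend to zero
  have hlim : Tendsto (fun j => (volume.restrict cube).real (E j)) atTop (𝓝 0) := by
    have h1 : Tendsto (fun j => ∫ x in cube, (E j).indicator (fun _ => (1 : ℝ)) x) atTop
        (𝓝 (∫ _ in cube, (0 : ℝ))) := by
      refine tendsto_integral_of_dominated_convergence (fun _ => (1 : ℝ))
        (fun j => (measurable_const.indicator (hEm j)).aestronglyMeasurable)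
        (integrable_const _) (fun j => ae_of_all _ fun x => ?_) ?_
      · by_cases hx : x ∈ E j
        · rw [indicator_of_mem hx]; simp
        · rw [indicator_of_notMem hx]; simp
      · filter_upwards [h, ae_good hv hdiv hg hw hp hi] with x hx hgood
        obtain ⟨R, hR, hpos⟩ := hx
        refine tendsto_const_nhds.congr' ?_
        -- large `j`
        have e1 : ∀ᶠ j : ℕ in atTop, R + 1 ≤ (j : ℝ) + 1 := by
          filter_upwards [eventually_ge_atTop ⌈R⌉₊] with j hj
          have := Nat.ceil_le.1 hj
          linarith
        have hten : Tendsto η atTop (𝓝 0) := tendsto_one_div_add_atTop_nhds_zero_nat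
        have e2 : ∀ᶠ j : ℕ in atTop, C * η j < seg g w R x := by
          have : Tendsto (fun j => C * η j) atTop (𝓝 (C * 0)) := hten.const_mul C
          rw [mul_zero] at this
          exact this.eventually (gt_mem_nhds hpos)
        filter_upwards [e1, e2] with j hj1 hj2
        symm
        rw [indicator_of_notMem]
        simp only [hE, mem_ofPred_eq, not_not]
        -- the number of steps
        set n := ⌈R / η j⌉₊ with hn
        have hn1 : R ≤ n * η j := by
          rw [← div_le_iff₀ (hη0 j)]
          exact Nat.le_ceil _
        have hn2 : n * η j ≤ R + η j := by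
          have h3 := (Nat.ceil_lt_add_one (div_nonneg hR.le (hη0 j).le)).le
          rw [← hn] at h3
          calc (n : ℝ) * η j ≤ (R / η j + 1) * η j := by
                have := hη0 j
                gcongr
            _ = R + η j := by
                rw [add_mul, one_mul, div_mul_cancel₀ _ (hη0 j).ne']
        have hnle : n ≤ (j + 1) ^ 2 := by
          rw [hn, Nat.ceil_le]
          push_cast
          have : R / η j = R * ((j : ℝ) + 1) := by
            simp only [hη]
            field_simp
          rw [this]
          have hj0 : (0 : ℝ) ≤ (j : ℝ) + 1 := by positivity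
          nlinarith
        have h3 : seg g w (n * η j) x ≤ mx g w (η j) n x := seg_le_mx hv hg (hη0 j).le n hgood
        have h4 := mx_mono_le (g := g) w (η j) hnle x
        have h5 := hgood.split (a := R) (b := n * η j) hR.le hn1
        have h6 : -(C * η j) ≤ ∫ r in Ioo R (n * η j), w (g r x) := by
          have h7 : ∫ _ in Ioo R (n * η j), -C = -(C * (n * η j - R)) := by
            rw [setIntegral_const, Real.volume_real_Ioo_of_le hn1, smul_eq_mul]
            ring
          have h8 : -(C * η j) ≤ -(C * (n * η j - R)) := by
            have : n * η j - R ≤ η j := by linarith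
            nlinarith
          refine h8.trans ?_
          rw [← h7]
          exact integral_mono (integrable_const _)
            ((hgood (n * η j)).mono_set (Ioo_subset_Ioo_left hR.le)) fun r => hC _
        linarith
    have e : ∀ j, ∫ x in cube, (E j).indicator (fun _ => (1 : ℝ)) x
        = (volume.restrict cube).real (E j) := by
      intro j
      rw [integral_indicator (hEm j), setIntegral_const, smul_eq_mul, mul_one]
    simp_rw [e] at h1
    simpa using h1
  have h9 : Tendsto (fun j => -(C * (volume.restrict cube).real (E j))) atTop (𝓝 (-(C * 0))) :=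
    (hlim.const_mul C).neg
  rw [mul_zero, neg_zero] at h9
  exact le_of_tendsto' h9 hb

include hv hg hdiv in
/-- **Means over segments of integral curves.** -/
theorem int_nonpos {k : V → ℝ} (hk : Measurable k) (hp : Per k) (hi : IntegrableOn k cube)
    (h : ∀ᵐ x ∂(volume.restrict cube), ∀ ε : ℝ, 0 < ε → ∃ R : ℝ, 0 < R ∧ seg g k R x ≤ ε * R) :
    ∫ x in cube, k x ≤ 0 := by
  have hfin := cube_finite
  have hprob : IsProbabilityMeasure (volume.restrict cube) :=
    ⟨by rw [Measure.restrict_apply_univ, volume_cube]⟩
  refine le_of_forall_pos_le_add fun ε hε => ?_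
  rw [zero_add]
  -- the truncated function
  set w : ℕ → V → ℝ := fun n x => max (-k x) (-n) + ε with hw
  have key : ∀ n : ℕ, 0 ≤ ∫ x in cube, w n x := by
    intro n
    have hwm : Measurable (w n) := (hk.neg.max measurable_const).add_const ε
    have hwp : Per (w n) := fun i x => by simp only [hw]; rw [hp i x]
    have hwi : IntegrableOn (w n) cube := (hi.neg.sup (integrable_const _)).add (integrable_const ε)
    refine seg_pos hv hdiv hg hwm hwp hwi (C := n) (Nat.cast_nonneg n) (fun x => ?_) ?_
    · simp only [hw]
      have := le_max_right (-k x) (-(n : ℝ))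
      linarith
    · filter_upwards [h, ae_good hv hdiv hg hk hp hi, ae_good hv hdiv hg hwm hwp hwi]
        with x hx hgk hgw
      obtain ⟨R, hR, hle⟩ := hx (ε / 2) (by positivity)
      refine ⟨R, hR, ?_⟩
      have h1 : ∫ r in Ioo 0 R, (-k (g r x) + ε) ≤ seg g (w n) R x := by
        refine integral_mono ((hgk R).neg.add (integrable_const ε)) (hgw R) fun r => ?_
        simp only [hw]
        have := le_max_left (-k (g r x)) (-(n : ℝ))
        linarith
      have h2 : ∫ r in Ioo 0 R, (-k (g r x) + ε) = -seg g k R x + R * ε := by
        have h3 : Integrable (fun r => -k (g r x)) (volume.restrict (Ioo 0 R)) := (hgk R).neg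
        rw [integral_add h3 (integrable_const ε), integral_neg, setIntegral_const,
          Real.volume_real_Ioo_of_le hR.le, sub_zero, smul_eq_mul]
        rfl
      have h4 : 0 < ε * R := mul_pos hε hR
      linarith
  have hlim : Tendsto (fun n : ℕ => ∫ x in cube, w n x) atTop
      (𝓝 (∫ x in cube, (-k x + ε))) := by
    refine tendsto_integral_of_dominated_convergence (fun x => |k x| + ε)
      (fun n => ((hk.neg.max measurable_const).add_const ε).aestronglyMeasurable)
      (hi.abs.add (integrable_const ε)) (fun n => ae_of_all _ fun x => ?_)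
      (ae_of_all _ fun x => ?_)
    · simp only [hw]
      refine (norm_add_le _ _).trans ?_
      rw [Real.norm_eq_abs, Real.norm_eq_abs, abs_of_pos hε]
      have : |max (-k x) (-(n : ℝ))| ≤ |k x| := by
        rw [abs_le]
        constructor
        · exact (neg_le_neg (le_abs_self _)).trans (le_max_left _ _)
        · refine max_le (neg_le_abs _) ?_
          have h1 : (0 : ℝ) ≤ n := Nat.cast_nonneg n
          linarith [abs_nonneg (k x)]
      linarith
    · refine tendsto_const_nhds.congr' ?_
      filter_upwards [eventually_ge_atTop ⌈|k x|⌉₊] with n hn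
      have h1 : |k x| ≤ n := Nat.ceil_le.1 hn
      simp only [hw]
      rw [max_eq_left]
      linarith [le_abs_self (k x)]
  have h3 := ge_of_tendsto' hlim key
  have h4 : Integrable (fun x => -k x) (volume.restrict cube) := hi.neg
  rw [integral_add h4 (integrable_const ε), integral_neg, integral_const] at h3
  simp only [probReal_univ, smul_eq_mul, one_mul] at h3
  linarith

end

end Pool.Agent.Q177.ML
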