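import Pool.Agent.Q177.ML.Vort
import Pool.Agent.Q177.ML.Agmon

/-!
Segments of vortex lines: definitions and the bound of the enstrophy production.
-/

open MeasureTheory Set Filter Topology
open scoped ContDiff ENNReal NNReal
open H459R3.NS Pool.Agent.W268.NS Pool.Agent.GR.Flow Pool.Agent.TH811.SPD

namespace Pool.Agent.Q177.ML

/-- `|∇ω|²`, where `ω` is the curl of `v`. -/
noncomputable def gradVortSq (v : V → V) (x : V) : ℝ :=
  ∑ k, ∑ i, pd k (fun y => vort v y i) x ^ 2

/-- `|(ω · ∇) ω|`: the rate of change of the vorticity along the vortex lines. -/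
noncomputable def bend (v : V → V) (x : V) : ℝ :=
  Real.sqrt (∑ j, (∑ i, vort v x i * pd i (fun y => vort v y j) x) ^ 2)

/-- The oscillation of `v`: the supremum of `|v(y) - v(z)|`. -/
noncomputable def osc (v : V → V) : ℝ := ⨆ p : V × V, Real.sqrt (∑ i, (v p.1 i - v p.2 i) ^ 2)

/-- The point `x` is the starting point of a segment `X : [0, R] → ℝ³` of the vortex line of `v`
(`X' = ω(X)`) with
`∫ ω · (ω · ∇) v ≤ ∫ (f |∇v|² + κ ν |∇ω|²)`, or
`osc v (|ω(X(R))| + ∫ |(ω · ∇) ω|) ≤ ∫ (h osc v |ω|² + κ ν |∇ω|²)`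
(integrals with respect to the parameter of the curve, over `(0, R)`). -/
def HasSegment (κ ν h : ℝ) (f : V → ℝ) (v : V → V) (x : V) : Prop :=
  ∃ (X : ℝ → V) (R : ℝ), 0 < R ∧ X 0 = x ∧ (∀ r, HasDerivAt X (vort v (X r)) r) ∧
    (∫ r in Ioo 0 R, stretchRate v (X r)
        ≤ ∫ r in Ioo 0 R, (f (X r) * gradSq v (X r) + κ * ν * gradVortSq v (X r)) ∨
      osc v * (Real.sqrt (vortSq v (X R)) + ∫ r in Ioo 0 R, bend v (X r))
        ≤ ∫ r in Ioo 0 R, (h * osc v * vortSq v (X r) + κ * ν * gradVortSq v (X r)))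

section

variable {v : V → V} (hv : ∀ i, SP (fun y => v y i))

theorem gradVortSq_nonneg (v : V → V) (x : V) : 0 ≤ gradVortSq v x :=
  Finset.sum_nonneg fun _ _ => Finset.sum_nonneg fun _ _ => sq_nonneg _

theorem bend_nonneg (v : V → V) (x : V) : 0 ≤ bend v x := Real.sqrt_nonneg _

include hv in
theorem sp_vortSq : SP (vortSq v) := by
  have : vortSq v = fun x => ∑ i, vort v x i * vort v x i := by
    funext x
    unfold vortSq
    exact Finset.sum_congr rfl fun i _ => sq _
  rw [this]
  exact SP.sum fun i _ => (sp_vort hv i).mul (sp_vort hv i)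

include hv in
theorem sp_gradVortSq : SP (gradVortSq v) := by
  have : gradVortSq v = fun x => ∑ k, ∑ i, pd k (fun y => vort v y i) x
      * pd k (fun y => vort v y i) x := by
    funext x
    unfold gradVortSq
    exact Finset.sum_congr rfl fun i _ => Finset.sum_congr rfl fun j _ => sq _
  rw [this]
  exact SP.sum fun k _ => SP.sum fun i _ => ((sp_vort hv i).pd k).mul ((sp_vort hv i).pd k)

include hv in
theorem bend_cont : Continuous (bend v) := by
  unfold bend
  refine Real.continuous_sqrt.comp (continuous_finsetSum _ fun j _ => ?_)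
  refine (continuous_finsetSum _ fun i _ => ?_).pow 2
  exact (sp_vort hv i).cont.mul ((sp_vort hv j).pd i).cont

include hv in
/-- `∫ |curl a|² = ∫ |∇a|²` if `div a = 0` -/
theorem int_vortSq (hdiv : ∀ x, ∑ i, pd i (fun y => v y i) x = 0) :
    ∫ x in cube, vortSq v x = enstrophy v := by
  have e : ∀ x, vortSq v x = gradSq v x - ∑ i, ∑ j,
      (pd i (fun y => v y j) x * pd j (fun y => v y i) x
        - pd j (fun y => v y j) x * pd i (fun y => v y i) x) := by
    intro x
    have h := hdiv x
    rw [Fin.sum_univ_three] at h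
    set A := gradM v x with hA
    have hA' : ∀ i j, pd i (fun y => v y j) x = A i j := fun _ _ => rfl
    have h0 : vort v x 0 = A 1 2 - A 2 1 := rfl
    have h1 : vort v x 1 = A 2 0 - A 0 2 := rfl
    have h2 : vort v x 2 = A 0 1 - A 1 0 := rfl
    have hg : gradSq v x = ∑ i, ∑ j, A i j ^ 2 := rfl
    rw [hg]
    unfold vortSq
    simp only [Fin.sum_univ_three, h0, h1, h2, hA'] at h ⊢
    have e3 : A 2 2 = -(A 0 0 + A 1 1) := by linarith
    rw [e3]
    ring
  have hm : ∀ i j : Fin 3, SP fun x => pd i (fun y => v y j) x * pd j (fun y => v y i) x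
        - pd j (fun y => v y j) x * pd i (fun y => v y i) x := fun i j =>
    sp_minor (hv j) (hv i) i j
  have hz : ∫ x in cube, ∑ i, ∑ j,
      (pd i (fun y => v y j) x * pd j (fun y => v y i) x
        - pd j (fun y => v y j) x * pd i (fun y => v y i) x) = 0 := by
    rw [integral_finsetSum _ fun i _ => (SP.sum fun j _ => hm i j).int]
    refine Finset.sum_eq_zero fun i _ => ?_
    rw [integral_finsetSum _ fun j _ => (hm i j).int]
    exact Finset.sum_eq_zero fun j _ => int_minor (hv j) (hv i) i j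
  simp_rw [e]
  rw [integral_sub (sp_gradSq hv).int (SP.sum fun i _ => SP.sum fun j _ => hm i j).int, hz,
    sub_zero, ← enst_eq v]
  unfold gradSq
  have hs : ∀ i j, IntegrableOn (fun x => gradM v x i j ^ 2) cube := fun i j =>
    integrableOn_cube ((sp_grad hv i j).cont.pow 2)
  rw [integral_finsetSum _ fun i _ => integrable_finsetSum _ fun j _ => hs i j]
  refine Finset.sum_congr rfl fun i _ => ?_
  rw [integral_finsetSum _ fun j _ => hs i j]

include hv in
/-- `∫ |∇ω|² = ∫ |Δv|²` -/
theorem int_gradVortSq (hdiv : ∀ x, ∑ i, pd i (fun y => v y i) x = 0) :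
    ∫ x in cube, gradVortSq v x = palin v := by
  -- the derivatives of `v`
  have hd : ∀ k : Fin 3, ∀ i : Fin 3, SP (fun y => (fun (z : V) (j : Fin 3) =>
      pd k (fun y => v y j) z) y i) := fun k i => (hv i).pd k
  have hvort : ∀ (k : Fin 3) (x : V) (i : Fin 3), pd k (fun y => vort v y i) x
      = vort (fun (z : V) (j : Fin 3) => pd k (fun y => v y j) z) x i := by
    intro k x i
    have h0 : (fun y => vort v y 0) = fun y => pd 1 (fun z => v z 2) y - pd 2 (fun z => v z 1) y :=
      rfl
    have h1 : (fun y => vort v y 1) = fun y => pd 2 (fun z => v z 0) y - pd 0 (fun z => v z 2) y :=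
      rfl
    have h2 : (fun y => vort v y 2) = fun y => pd 0 (fun z => v z 1) y - pd 1 (fun z => v z 0) y :=
      rfl
    fin_cases i
    · show pd k (fun y => vort v y 0) x = pd 1 (pd k fun y => v y 2) x - pd 2 (pd k fun y => v y 1) x
      rw [h0, pd_sub ((hv 2).pd 1) ((hv 1).pd 2), pd_comm (hv 2) 1 k, pd_comm (hv 1) 2 k]
    · show pd k (fun y => vort v y 1) x = pd 2 (pd k fun y => v y 0) x - pd 0 (pd k fun y => v y 2) x
      rw [h1, pd_sub ((hv 0).pd 2) ((hv 2).pd 0), pd_comm (hv 0) 2 k, pd_comm (hv 2) 0 k]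
    · show pd k (fun y => vort v y 2) x = pd 0 (pd k fun y => v y 1) x - pd 1 (pd k fun y => v y 0) x
      rw [h2, pd_sub ((hv 1).pd 0) ((hv 0).pd 1), pd_comm (hv 1) 0 k, pd_comm (hv 0) 1 k]
  have hdd : ∀ k x, ∑ i, pd i (fun y => (fun (z : V) (j : Fin 3) =>
      pd k (fun y => v y j) z) y i) x = 0 := by
    intro k x
    have h1 : ∀ i, pd i (fun y => pd k (fun y => v y i) y) x = pd k (pd i fun y => v y i) x := by
      intro i
      show pd i (pd k fun y => v y i) x = _
      rw [pd_comm (hv i) i k]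
    have h2 : pd k (fun x => ∑ i, pd i (fun y => v y i) x) x = 0 := by
      have : (fun x => ∑ i, pd i (fun y => v y i) x) = fun _ => (0 : ℝ) := funext hdiv
      rw [this]
      unfold pd
      simp
    have h3 : pd k (fun x => ∑ i, pd i (fun y => v y i) x) x = ∑ i, pd k (pd i fun y => v y i) x := by
      unfold pd
      have h4 : HasFDerivAt (fun x => ∑ i, (fderiv ℝ (fun y => v y i) x) (Pi.single i 1))
          (∑ i, fderiv ℝ (fun x => (fderiv ℝ (fun y => v y i) x) (Pi.single i 1)) x) x :=
        HasFDerivAt.fun_sum fun i _ => (((hv i).pd i).diff x).hasFDerivAt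
      rw [h4.fderiv]
      simp
    simp only
    rw [Finset.sum_congr rfl fun i _ => h1 i, ← h3, h2]
  have e : ∀ x, gradVortSq v x = ∑ k, vortSq (fun (z : V) (j : Fin 3) => pd k (fun y => v y j) z) x := by
    intro x
    unfold gradVortSq vortSq
    refine Finset.sum_congr rfl fun k _ => Finset.sum_congr rfl fun i _ => ?_
    rw [hvort k x i]
  simp_rw [e]
  rw [integral_finsetSum _ fun k _ => (sp_vortSq (hd k)).int]
  simp_rw [fun k => int_vortSq (hd k) (hdd k)]
  have h := sum_hess (v := fun i y => v y i) hv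
  unfold palin
  rw [← h, Finset.sum_comm]
  refine Finset.sum_congr rfl fun k _ => ?_
  unfold enstrophy
  refine Finset.sum_congr rfl fun i _ => Finset.sum_congr rfl fun j _ => ?_
  have hs : SP (pd k (fun y => v y i)) := (hv i).pd k
  rw [← fr_pd (hv i), ← fr_pd hs, n2_fr (hs.pd j)]

include hv in
theorem osc_bdd : BddAbove (range fun p : V × V => Real.sqrt (∑ i, (v p.1 i - v p.2 i) ^ 2)) := by
  obtain ⟨B, hB⟩ := per_bound (v_per hv) (v_smooth hv).continuous
  refine ⟨Real.sqrt (∑ _i : Fin 3, (2 * (B : ℝ)) ^ 2), ?_⟩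
  rintro _ ⟨p, rfl⟩
  refine Real.sqrt_le_sqrt (Finset.sum_le_sum fun i _ => ?_)
  rw [← sq_abs]
  refine pow_le_pow_left₀ (abs_nonneg _) ?_ 2
  have h1 := (norm_le_pi_norm (v p.1) i).trans (hB p.1)
  have h2 := (norm_le_pi_norm (v p.2) i).trans (hB p.2)
  rw [Real.norm_eq_abs] at h1 h2
  have := abs_sub (v p.1 i) (v p.2 i)
  linarith

include hv in
theorem le_osc (x y : V) : Real.sqrt (∑ i, (v x i - v y i) ^ 2) ≤ osc v :=
  le_ciSup (osc_bdd hv) (x, y)

include hv in
theorem osc_nonneg : 0 ≤ osc v := (Real.sqrt_nonneg _).trans (le_osc hv 0 0)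

theorem osc_sq_le {G H : ℝ} (ha : GH2 (fun i x => v x i) G H) : osc v ^ 2 ≤ 1248 * (G * H) := by
  have hv : ∀ i, SP (fun y => v y i) := ha.sp
  have hGH : 0 ≤ G * H := mul_nonneg ha.g0 ha.h0
  have hcomp : ∀ (i : Fin 3) (x y : V), (v x i - v y i) ^ 2 ≤ 416 * (G * H) := by
    intro i x y
    set m := ∫ z in cube, v z i with hm
    set g : V → ℝ := fun z => v z i - m with hg
    have hgs : SP g := SP.sub' (hv i) (sp_const m)
    have hg0 : ∫ x in cube, g x = 0 := by
      simp only [hg]
      rw [integral_sub (hv i).int (sp_const m).int, int_const_cube, ← hm, sub_self]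
    have hpd : ∀ j, pd j g = pd j (fun y => v y i) := by
      intro j
      funext z
      have a1 : pd j g z = pd j (fun y => v y i) z - pd j (fun _ => m) z :=
        pd_sub (hv i) (sp_const m) j z
      have a2 : pd j (fun _ : V => m) z = 0 := by unfold pd; simp
      rw [a1, a2, sub_zero]
    have hgrd : grd g ≤ G := by
      have h1 : grd g ^ 2 ≤ G ^ 2 := by
        rw [grd_sq]
        simp_rw [hpd]
        refine le_trans ?_ ha.g
        exact Finset.single_le_sum (f := fun i => ∑ j, ∫ x in cube, pd j (fun y => v y i) x ^ 2)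
          (fun _ _ => Finset.sum_nonneg fun _ _ => integral_nonneg fun _ => sq_nonneg _)
          (Finset.mem_univ i)
      exact (pow_le_pow_iff_left₀ (grd_nonneg _) ha.g0 (by norm_num)).1 h1
    have hlap : lap g = lap (fun y => v y i) := by
      funext z
      unfold lap
      simp_rw [hpd]
    have hnl : nrm (lap g) ≤ H := by
      rw [hlap]
      exact nrm_lap_le ha i
    have hprod : grd g * nrm (lap g) ≤ G * H :=
      mul_le_mul hgrd hnl (nrm_nonneg _) ha.g0
    have h1 := agmon hgs hg0 x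
    have h2 := agmon hgs hg0 y
    have e : v x i - v y i = g x - g y := by simp only [hg]; ring
    rw [e]
    nlinarith [sq_nonneg (g x + g y)]
  have h1 : osc v ≤ Real.sqrt (1248 * (G * H)) := by
    refine ciSup_le fun p => Real.sqrt_le_sqrt ?_
    refine (Finset.sum_le_sum fun i _ => hcomp i p.1 p.2).trans (le_of_eq ?_)
    rw [Finset.sum_const, Finset.card_univ, Fintype.card_fin, nsmul_eq_mul]
    push_cast
    ring
  have h0 := osc_nonneg hv
  calc osc v ^ 2 ≤ Real.sqrt (1248 * (G * H)) ^ 2 := pow_le_pow_left₀ h0 h1 2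
    _ = _ := Real.sq_sqrt (by positivity)

include hv in
/-- Integration by parts along a segment of a vortex line. -/
theorem stretch_parts {X : ℝ → V} (hX : ∀ r, HasDerivAt X (vort v (X r)) r) {R : ℝ} (hR : 0 < R) :
    ∫ r in Ioo 0 R, stretchRate v (X r)
      ≤ osc v * (Real.sqrt (vortSq v (X R)) + ∫ r in Ioo 0 R, bend v (X r)) := by
  have hXc : Continuous X := continuous_iff_continuousAt.2 fun r => (hX r).continuousAt
  have hcI : ∀ {F : ℝ → ℝ}, Continuous F → IntegrableOn F (Ioo 0 R) := fun hF =>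
    (hF.continuousOn.integrableOn_Icc (a := 0) (b := R)).mono_set Ioo_subset_Icc_self
  -- derivatives along the line
  have hder : ∀ {F : V → ℝ}, SP F → ∀ r, HasDerivAt (fun r => F (X r))
      (∑ i, vort v (X r) i * pd i F (X r)) r := by
    intro F hF r
    have h1 := (hF.diff (X r)).hasFDerivAt.comp_hasDerivAt r (hX r)
    have h2 := adv_eq (vort v) F (X r)
    unfold adv at h2
    rw [h2]
    exact h1
  set c : V := X 0 with hc
  set W : ℝ → ℝ := fun r => ∑ j, (v (X r) j - v c j) * vort v (X r) j with hW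
  set b : ℝ → ℝ := fun r => ∑ j, (v (X r) j - v c j)
    * ∑ i, vort v (X r) i * pd i (fun y => vort v y j) (X r) with hb
  have hWd : ∀ r, HasDerivAt W (stretchRate v (X r) + b r) r := by
    intro r
    have h1 : HasDerivAt W (∑ j, ((∑ i, vort v (X r) i * pd i (fun y => v y j) (X r))
        * vort v (X r) j + (v (X r) j - v c j)
          * ∑ i, vort v (X r) i * pd i (fun y => vort v y j) (X r))) r := by
      refine HasDerivAt.fun_sum fun j _ => ?_
      exact ((hder (hv j) r).sub_const _).mul (hder (sp_vort hv j) r)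
    refine h1.congr_deriv ?_
    rw [Finset.sum_add_distrib]
    congr 1
    unfold stretchRate
    rw [Finset.sum_comm]
    refine Finset.sum_congr rfl fun j _ => ?_
    rw [Finset.sum_mul]
    rfl
  have hsc : Continuous fun r => stretchRate v (X r) := (sp_stretchRate hv).cont.comp hXc
  have hbc : Continuous b := by
    refine continuous_finsetSum _ fun j _ => ?_
    refine (((hv j).cont.comp hXc).sub continuous_const).mul (continuous_finsetSum _ fun i _ => ?_)
    exact ((sp_vort hv i).cont.comp hXc).mul (((sp_vort hv j).pd i).cont.comp hXc)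
  have hW0 : W 0 = 0 := by simp [hW, ← hc]
  have hft : ∫ r in Ioo 0 R, (stretchRate v (X r) + b r) = W R := by
    rw [← integral_Ioc_eq_integral_Ioo, ← intervalIntegral.integral_of_le hR.le,
      intervalIntegral.integral_eq_sub_of_hasDerivAt (fun r _ => hWd r)
        ((hsc.add hbc).intervalIntegrable _ _), hW0, sub_zero]
  rw [integral_add (hcI hsc) (hcI hbc)] at hft
  -- Cauchy-Schwarz
  have hCS : ∀ (r : ℝ) (a : V), |∑ j, (v (X r) j - v c j) * a j|
      ≤ osc v * Real.sqrt (∑ j, a j ^ 2) := by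
    intro r a
    have h1 := Finset.sum_mul_sq_le_sq_mul_sq (Finset.univ : Finset (Fin 3))
      (fun j => v (X r) j - v c j) (fun j => a j)
    have h2 : |∑ j, (v (X r) j - v c j) * a j|
        ≤ Real.sqrt (∑ j, (v (X r) j - v c j) ^ 2) * Real.sqrt (∑ j, a j ^ 2) := by
      rw [← Real.sqrt_mul (Finset.sum_nonneg fun _ _ => sq_nonneg _)]
      exact Real.le_sqrt_of_sq_le (by rw [sq_abs]; exact h1)
    exact h2.trans (mul_le_mul_of_nonneg_right (le_osc hv _ _) (Real.sqrt_nonneg _))
  have h1 : W R ≤ osc v * Real.sqrt (vortSq v (X R)) :=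
    (le_abs_self _).trans (hCS R (vort v (X R)))
  have h2 : -(∫ r in Ioo 0 R, b r) ≤ osc v * ∫ r in Ioo 0 R, bend v (X r) := by
    rw [← integral_neg, ← integral_const_mul]
    refine integral_mono (hcI hbc).neg ((hcI ((bend_cont hv).comp hXc)).const_mul _) fun r => ?_
    have h3 := hCS r (fun j => ∑ i, vort v (X r) i * pd i (fun y => vort v y j) (X r))
    exact (neg_le_abs _).trans h3
  rw [mul_add]
  linarith

end

end Pool.Agent.Q177.ML
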