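import Pool.Agent.Q177.ML.Line

/-!
The regularity criterion for segments of vortex lines.
-/

open MeasureTheory Set Filter Topology
open scoped ContDiff ENNReal NNReal
open H459R3.NS Pool.Agent.W268.NS Pool.Agent.GR.Flow Pool.Agent.TH811.SPD

namespace Pool.Agent.Q177.ML

/-- The bound of the enstrophy production by the condition on segments of vortex lines. -/
theorem prod_line {p : ℝ≥0∞} (hp : 3 / 2 < p) : ∃ C : ℝ, 0 ≤ C ∧
    ∀ (v : V → V) (f₁ f₂ : V → ℝ) (β b a κ ν M h G H : ℝ),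
      GH2 (fun i x => v x i) G H → (∀ x, ∑ i, pd i (fun y => v y i) x = 0) →
      0 ≤ β → 0 ≤ κ → 0 ≤ ν → 0 ≤ M → 0 ≤ h →
      Measurable f₁ → Per f₁ → (∀ x, 0 ≤ f₁ x) →
      eLpNorm f₁ p (volume.restrict cube) ≤ ENNReal.ofReal β →
      Measurable f₂ → Per f₂ → (∀ x, 0 ≤ f₂ x) → IntegrableOn f₂ cube → FormBound a b f₂ →
      (∀ᵐ x ∂(volume.restrict cube), M ^ 2 < vortSq v x →
        HasSegment κ ν h (fun y => f₁ y + f₂ y) v x) →
      -cub (fun i x => v x i) ≤ C * (β * (G ^ (2 - th p) * H ^ th p)) + a * palin v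
        + b * enstrophy v + 2 * M * enstrophy v + 2 * (h * osc v) * enstrophy v
        + κ * ν * palin v := by
  obtain ⟨C, hC0, hC⟩ := int_pot hp
  refine ⟨C, hC0, fun v f₁ f₂ β b a κ ν M h G H ha hdiv hβ hκ hν hM hh hf₁ hp₁ h0₁ hβ₁ hf₂ hp₂ h0₂
    hi₂ hform hseg => ?_⟩
  have hfin := cube_finite
  have hv : ∀ i, SP (fun y => v y i) := ha.sp
  have hw := spv_vort hv
  have hws : ∀ i, SP (fun y => vort v y i) := fun i => hw.sp i
  have hwdiv := div_vort hv
  obtain ⟨g, hg⟩ := exists_flow hws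
  obtain ⟨hfi, hfI⟩ := hC f₁ v G H β hf₁.aestronglyMeasurable hβ hβ₁ ha
  have ho := osc_nonneg hv
  have hho : 0 ≤ h * osc v := mul_nonneg hh ho
  have i1 : IntegrableOn (stretchRate v) cube := (sp_stretchRate hv).int
  have i2 : IntegrableOn (fun x => f₂ x * gradSq v x) cube := int_mul_cont hi₂ (sp_gradSq hv).cont
  have i3 : IntegrableOn (fun x => κ * ν * gradVortSq v x) cube :=
    (sp_gradVortSq hv).int.const_mul _
  have i4 : IntegrableOn (fun x => (2 * M + 2 * (h * osc v)) * gradSq v x) cube :=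
    (sp_gradSq hv).int.const_mul _
  set j : V → ℝ := fun x => (f₁ x + f₂ x) * gradSq v x + κ * ν * gradVortSq v x with hj
  have hji : IntegrableOn j cube := by
    have e12 : j = fun x => (f₁ x * gradSq v x + f₂ x * gradSq v x) + κ * ν * gradVortSq v x := by
      funext x; simp only [hj]; ring
    rw [e12]; exact (hfi.add i2).add i3
  have hjm : Measurable j := ((hf₁.add hf₂).mul (sp_gradSq hv).cont.measurable).add
    ((sp_gradVortSq hv).cont.measurable.const_mul _)
  have hjp : Per j := by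
    intro i x
    simp only [hj]
    rw [hp₁ i x, hp₂ i x, (sp_gradSq hv).per i x, (sp_gradVortSq hv).per i x]
  -- the function
  set k : V → ℝ := fun x => stretchRate v x - j x - (2 * M + 2 * (h * osc v)) * gradSq v x with hk
  have hki : IntegrableOn k cube := (i1.sub hji).sub i4
  have hkm : Measurable k := ((sp_stretchRate hv).cont.measurable.sub hjm).sub
    ((sp_gradSq hv).cont.measurable.const_mul _)
  have hkp : Per k := by
    intro i x
    simp only [hk]
    rw [hjp i x, (sp_gradSq hv).per i x, (sp_stretchRate hv).per i x]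
  have hmain : ∫ x in cube, k x ≤ 0 := by
    refine int_nonpos hws hwdiv hg hkm hkp hki ?_
    filter_upwards [hseg, ae_good hws hwdiv hg hjm hjp hji] with x hx hgx
    by_cases hlarge : M ^ 2 < vortSq v x
    · obtain ⟨X, R, hR, hX0, hX, hor⟩ := hx hlarge
      intro ε hε
      refine ⟨R, hR, ?_⟩
      have hXg : ∀ r, X r = g r x := by
        obtain ⟨L, hL⟩ := v_lip hws
        have := ODE_solution_unique_univ (v := fun _ => vort v) (s := fun _ => univ) (K := L)
          (t₀ := 0) (f := X) (g := fun t => g t x)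
          (fun t => hL.lipschitzOnWith) (fun t => ⟨hX t, trivial⟩)
          (fun t => ⟨hg.deriv x t, trivial⟩) (by rw [hX0, hg.zero])
        exact fun r => congrFun this r
      have hXc : Continuous X := continuous_iff_continuousAt.2 fun r => (hX r).continuousAt
      have hcI : ∀ {F : ℝ → ℝ}, Continuous F → IntegrableOn F (Ioo 0 R) := fun hF =>
        (hF.continuousOn.integrableOn_Icc (a := 0) (b := R)).mono_set Ioo_subset_Icc_self
      have k1 : IntegrableOn (fun r => stretchRate v (X r)) (Ioo 0 R) :=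
        hcI ((sp_stretchRate hv).cont.comp hXc)
      have k2 : IntegrableOn (fun r => j (X r)) (Ioo 0 R) := by
        have := hgx R
        simp_rw [← hXg] at this
        exact this
      have k3 : IntegrableOn (fun r => (2 * M + 2 * (h * osc v)) * gradSq v (X r)) (Ioo 0 R) :=
        (hcI ((sp_gradSq hv).cont.comp hXc)).const_mul _
      have k4 : IntegrableOn (fun r => gradSq v (X r)) (Ioo 0 R) :=
        hcI ((sp_gradSq hv).cont.comp hXc)
      have k5 : IntegrableOn (fun r => vortSq v (X r)) (Ioo 0 R) :=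
        hcI ((sp_vortSq hv).cont.comp hXc)
      have k6 : IntegrableOn (fun r => κ * ν * gradVortSq v (X r)) (Ioo 0 R) :=
        (hcI ((sp_gradVortSq hv).cont.comp hXc)).const_mul _
      have e : seg g k R x = (∫ r in Ioo 0 R, stretchRate v (X r)) - (∫ r in Ioo 0 R, j (X r))
          - (2 * M + 2 * (h * osc v)) * ∫ r in Ioo 0 R, gradSq v (X r) := by
        unfold seg
        simp_rw [← hXg]
        simp only [hk]
        have k12 : IntegrableOn (fun r => stretchRate v (X r) - j (X r)) (Ioo 0 R) := k1.sub k2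
        rw [integral_sub k12 k3, integral_sub k1 k2, integral_const_mul]
      rw [e]
      have hgr0 : 0 ≤ ∫ r in Ioo 0 R, gradSq v (X r) :=
        integral_nonneg fun r => gradSq_nonneg _ _
      have hεR : 0 < ε * R := mul_pos hε hR
      have hcoef : 0 ≤ (2 * M + 2 * (h * osc v)) * ∫ r in Ioo 0 R, gradSq v (X r) := by positivity
      rcases hor with hor | hor
      · have h8 : ∫ r in Ioo 0 R, stretchRate v (X r) ≤ ∫ r in Ioo 0 R, j (X r) := hor
        linarith
      · have h9 := stretch_parts hv hX hR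
        have h10 : ∫ r in Ioo 0 R, (h * osc v * vortSq v (X r) + κ * ν * gradVortSq v (X r))
            ≤ 2 * (h * osc v) * (∫ r in Ioo 0 R, gradSq v (X r)) + ∫ r in Ioo 0 R, j (X r) := by
          rw [← integral_const_mul, ← integral_add (k4.const_mul _) k2]
          refine integral_mono ((k5.const_mul _).add k6) ((k4.const_mul _).add k2) fun r => ?_
          have a1 := vortSq_le v (X r)
          have a2 : h * osc v * vortSq v (X r) ≤ h * osc v * (2 * gradSq v (X r)) :=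
            mul_le_mul_of_nonneg_left a1 hho
          have a3 : 0 ≤ (f₁ (X r) + f₂ (X r)) * gradSq v (X r) :=
            mul_nonneg (add_nonneg (h0₁ _) (h0₂ _)) (gradSq_nonneg _ _)
          simp only [hj]
          linarith
        have h11 : 0 ≤ 2 * M * ∫ r in Ioo 0 R, gradSq v (X r) := by positivity
        have h12 : (2 * M + 2 * (h * osc v)) * ∫ r in Ioo 0 R, gradSq v (X r)
            = 2 * M * (∫ r in Ioo 0 R, gradSq v (X r))
              + 2 * (h * osc v) * ∫ r in Ioo 0 R, gradSq v (X r) := by ring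
        rw [h12]
        linarith
    · rw [not_lt] at hlarge
      intro ε hε
      have hc : Continuous fun r => stretchRate v (g r x) - 2 * M * gradSq v (g r x) :=
        ((sp_stretchRate hv).cont.comp (hg.continuous x)).sub
          (continuous_const.mul ((sp_gradSq hv).cont.comp (hg.continuous x)))
      have h0 : stretchRate v (g 0 x) - 2 * M * gradSq v (g 0 x) < ε := by
        rw [hg.zero]
        have := stretch_le hM hlarge
        linarith
      obtain ⟨R, hR, hball⟩ := Metric.eventually_nhds_iff.1 (hc.continuousAt.eventually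
        (gt_mem_nhds h0))
      refine ⟨R, hR, ?_⟩
      have hle : ∀ r ∈ Ioo 0 R, k (g r x) ≤ ε := by
        intro r hr
        have h1 : stretchRate v (g r x) - 2 * M * gradSq v (g r x) < ε := hball (by
          rw [Real.dist_eq, sub_zero, abs_of_pos hr.1]; exact hr.2)
        have h2 : 0 ≤ (f₁ (g r x) + f₂ (g r x)) * gradSq v (g r x) :=
          mul_nonneg (add_nonneg (h0₁ _) (h0₂ _)) (gradSq_nonneg _ _)
        have h3 : 0 ≤ κ * ν * gradVortSq v (g r x) :=
          mul_nonneg (mul_nonneg hκ hν) (gradVortSq_nonneg _ _)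
        have h4 : 0 ≤ h * osc v * gradSq v (g r x) := mul_nonneg hho (gradSq_nonneg _ _)
        simp only [hk, hj]
        nlinarith
      unfold seg
      by_cases hI : IntegrableOn (fun r => k (g r x)) (Ioo 0 R)
      · have h1 : ∫ r in Ioo 0 R, k (g r x) ≤ ∫ _ in Ioo 0 R, ε :=
          setIntegral_mono_on hI (integrable_const _) measurableSet_Ioo hle
        refine h1.trans (le_of_eq ?_)
        rw [setIntegral_const, Real.volume_real_Ioo_of_le hR.le, sub_zero, smul_eq_mul, mul_comm]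
      · rw [integral_undef hI]
        positivity
  -- compute the integral
  have hgr : ∫ x in cube, gradSq v x = enstrophy v := by
    rw [← enst_eq v]
    unfold gradSq
    have hs : ∀ i j, IntegrableOn (fun x => gradM v x i j ^ 2) cube := fun i j =>
      integrableOn_cube ((sp_grad hv i j).cont.pow 2)
    rw [integral_finsetSum _ fun i _ => integrable_finsetSum _ fun j _ => hs i j]
    refine Finset.sum_congr rfl fun i _ => ?_
    rw [integral_finsetSum _ fun j _ => hs i j]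
  have e1 : ∫ x in cube, k x = (∫ x in cube, stretchRate v x)
      - ((∫ x in cube, f₁ x * gradSq v x) + (∫ x in cube, f₂ x * gradSq v x)
        + κ * ν * ∫ x in cube, gradVortSq v x)
      - (2 * M + 2 * (h * osc v)) * ∫ x in cube, gradSq v x := by
    have e12 : j = fun x => (f₁ x * gradSq v x + f₂ x * gradSq v x) + κ * ν * gradVortSq v x := by
      funext x; simp only [hj]; ring
    have i5 : IntegrableOn (fun x => f₁ x * gradSq v x + f₂ x * gradSq v x) cube := hfi.add i2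
    have i6 : IntegrableOn (fun x => stretchRate v x - j x) cube := i1.sub hji
    simp only [hk]
    rw [integral_sub i6 i4, integral_sub i1 hji, integral_const_mul, e12, integral_add i5 i3,
      integral_add hfi i2, integral_const_mul]
  rw [e1, hgr, int_gradVortSq hv hdiv, ← cub_eq_stretch hv hdiv] at hmain
  have h4 := form_grad hv hform hi₂
  nlinarith

/-- From a bound of the enstrophy production at almost all times to bounded velocity. -/
theorem gron_ae {ν T : ℝ} {u : ℝ → V → V} {P : ℝ → V → ℝ} (h : IsSol ν T u P) (hν : 0 < ν)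
    {κ₀ B : ℝ} (hκ1 : κ₀ < 1) (hκ3 : 1 / 2 ≤ κ₀) {g : ℝ → ℝ}
    (hgi : ∀ t ∈ Ico 0 T, IntegrableOn g (Ioo 0 t)) (hgB : ∀ t ∈ Ico 0 T, ∫ s in Ioo 0 t, g s ≤ B)
    (hae : ∀ᵐ t ∂(volume.restrict (Ioo 0 T)), 0 ≤ g t ∧
      -(2 * cub (fun i x => u t x i)) ≤ (2 - (1 - κ₀)) * (ν * palin (u t))
        + g t * enstrophy (u t)) :
    (∀ t ∈ Ico 0 T, enstrophy (u t) ≤ enstrophy (u 0) * Real.exp B) ∧
      ∃ M, ∀ t ∈ Ico 0 T, ∀ x i, |u t x i| ≤ M := by
  have hδ : 0 < 1 - κ₀ := by linarith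
  have hany : ∀ t, ∃ D : ℝ, 0 ≤ D ∧ (t ∈ Ioo 0 T →
      -(2 * cub (fun i x => u t x i)) ≤ (2 - (1 - κ₀)) * (ν * palin (u t))
        + D * enstrophy (u t)) := by
    intro t
    by_cases ht : t ∈ Ioo 0 T
    · have hc : 0 < (2 - (1 - κ₀)) * ν := by
        have : 0 < 2 - (1 - κ₀) := by linarith
        positivity
      obtain ⟨D, hD, h1⟩ := prod_any hc (v := u t) fun i => h.sp ⟨ht.1.le, ht.2⟩ i
      exact ⟨D, hD, fun _ => by rw [← mul_assoc]; exact h1⟩
    · exact ⟨0, le_rfl, fun h => absurd h ht⟩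
  choose Dt hDt0 hDt using hany
  classical
  set g' : ℝ → ℝ := fun t => if (0 ≤ g t ∧
      -(2 * cub (fun i x => u t x i)) ≤ (2 - (1 - κ₀)) * (ν * palin (u t))
        + g t * enstrophy (u t)) then g t else Dt t with hg'
  have hg'0 : ∀ t, 0 ≤ g' t := by
    intro t
    simp only [hg']
    split_ifs with h1
    · exact h1.1
    · exact hDt0 t
  have hg'ae : g' =ᵐ[volume.restrict (Ioo 0 T)] g := by
    filter_upwards [hae] with t ht
    simp only [hg']
    rw [if_pos ht]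
  have hg'ae' : ∀ t ∈ Ico 0 T, g' =ᵐ[volume.restrict (Ioo 0 t)] g := fun t ht =>
    ae_restrict_of_ae_restrict_of_subset (Ioo_subset_Ioo_right ht.2.le) hg'ae
  refine h.gron hν (g := g') hδ (fun s _ => hg'0 s) (fun t ht => ?_) (fun t ht => ?_)
    (fun t ht => ?_)
  · rw [integrableOn_Icc_iff_integrableOn_Ioc, integrableOn_Ioc_iff_integrableOn_Ioo]
    exact (hgi t ht).congr (hg'ae' t ht).symm
  · rw [intervalIntegral.integral_of_le ht.1, integral_Ioc_eq_integral_Ioo,
      integral_congr_ae (hg'ae' t ht)]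
    exact hgB t ht
  · show -(2 * cub (fun i x => u t x i)) ≤ (2 - (1 - κ₀)) * (ν * palin (u t))
      + g' t * enstrophy (u t)
    simp only [hg']
    split_ifs with h1
    · exact h1.2
    · exact hDt t ht

/-- an interpolation -/
theorem interp {c : ℝ} (hc : 0 < c) {h s G H : ℝ} (hG : 0 ≤ G) (hH : 0 ≤ H) (hsq : s ^ 2 ≤ 1248 * (G * H)) :
    4 * (h * s) * G ^ 2 ≤ c * H ^ 2 + (2 / c + 2496) * ((h ^ 4 + G ^ 2) * G ^ 2) := by
  have h1 : 4 * (h * s) * G ^ 2 ≤ 2 * (h ^ 2 * s ^ 2) / 1248 + 2496 * G ^ 4 := by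
    have : 0 ≤ 2 / 1248 * (h * s - 1248 * G ^ 2) ^ 2 := by positivity
    nlinarith
  have h2 : 2 * (h ^ 2 * s ^ 2) / 1248 ≤ 2 * (h ^ 2 + G) * (G * H) := by
    have a1 : h ^ 2 * s ^ 2 ≤ h ^ 2 * (1248 * (G * H)) :=
      mul_le_mul_of_nonneg_left hsq (sq_nonneg h)
    have a2 : 0 ≤ G * (G * H) := by positivity
    nlinarith
  have h3 : 2 * (h ^ 2 + G) * (G * H) ≤ c * H ^ 2 + (h ^ 2 + G) ^ 2 * G ^ 2 / c := by
    have a1 : 0 ≤ (c * H - (h ^ 2 + G) * G) ^ 2 / c := by positivity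
    have a2 : (c * H - (h ^ 2 + G) * G) ^ 2 / c
        = c * H ^ 2 + (h ^ 2 + G) ^ 2 * G ^ 2 / c - 2 * (h ^ 2 + G) * (G * H) := by
      field_simp
      ring
    linarith
  have h4 : (h ^ 2 + G) ^ 2 * G ^ 2 / c ≤ 2 / c * ((h ^ 4 + G ^ 2) * G ^ 2) := by
    have a1 : (h ^ 2 + G) ^ 2 ≤ 2 * (h ^ 4 + G ^ 2) := by nlinarith [sq_nonneg (h ^ 2 - G)]
    calc (h ^ 2 + G) ^ 2 * G ^ 2 / c ≤ (2 * (h ^ 4 + G ^ 2)) * G ^ 2 / c := by gcongr
      _ = _ := by ring
  have h5 : 2496 * G ^ 4 ≤ 2496 * ((h ^ 4 + G ^ 2) * G ^ 2) := by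
    have : 0 ≤ h ^ 4 * G ^ 2 := by positivity
    nlinarith
  have h6 : (2 / c + 2496) * ((h ^ 4 + G ^ 2) * G ^ 2)
      = 2 / c * ((h ^ 4 + G ^ 2) * G ^ 2) + 2496 * ((h ^ 4 + G ^ 2) * G ^ 2) := by ring
  rw [h6]
  linarith

theorem main {p : ℝ≥0∞} (hp : 3 / 2 < p) {q : ℝ} (hpq : 3 * (p⁻¹).toReal + 2 / q = 2)
    {ν κ δ : ℝ} (hν : 0 < ν) (hκ : 0 ≤ κ) (hκδ : κ + δ < 1) :
    ∃ C : ℝ, 0 ≤ C ∧ ∀ (T : ℝ) (u : ℝ → V → V) (P : ℝ → V → ℝ) (β γ M h : ℝ → ℝ), IsSol ν T u P →
      IntegrableOn (fun t => β t ^ q) (Ioo 0 T) → IntegrableOn γ (Ioo 0 T) →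
      IntegrableOn M (Ioo 0 T) → IntegrableOn (fun t => h t ^ 4) (Ioo 0 T) →
      (∀ᵐ t ∂(volume.restrict (Ioo 0 T)), 0 ≤ β t ∧ 0 ≤ γ t ∧ 0 ≤ M t ∧ 0 ≤ h t ∧
        ∃ f₁ f₂ : V → ℝ,
          Measurable f₁ ∧ Per f₁ ∧ (∀ x, 0 ≤ f₁ x) ∧
          eLpNorm f₁ p (volume.restrict cube) ≤ ENNReal.ofReal (β t) ∧
          Measurable f₂ ∧ Per f₂ ∧ (∀ x, 0 ≤ f₂ x) ∧ IntegrableOn f₂ cube ∧
          FormBound (δ * ν) (γ t) f₂ ∧
          ∀ᵐ x ∂(volume.restrict cube), M t ^ 2 < vortSq (u t) x →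
            HasSegment κ ν (h t) (fun y => f₁ y + f₂ y) (u t) x) →
      (∀ t ∈ Ico 0 T, enstrophy (u t) ≤ enstrophy (u 0) * Real.exp
        (C * ((∫ τ in Ioo 0 T, β τ ^ q) + (∫ τ in Ioo 0 T, h τ ^ 4) + energy (u 0))
          + 2 * (∫ τ in Ioo 0 T, γ τ) + 4 * ∫ τ in Ioo 0 T, M τ)) ∧
      ∃ B, ∀ t ∈ Ico 0 T, ∀ x i, |u t x i| ≤ B := by
  set θ := th p with hθ
  have hθ0 : 0 ≤ θ := th_nonneg p
  have hθ2 : θ < 2 := th_lt_two hp
  have hq : q = 2 / (2 - θ) := by
    have h1 : 2 / q = 2 - θ := by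
      have : θ = 3 * (p⁻¹).toReal := rfl
      rw [this]
      linarith
    rw [← h1]
    have : q ≠ 0 := by
      intro h0
      rw [h0, div_zero] at h1
      linarith
    field_simp
  obtain ⟨C0, hC00, hC0⟩ := prod_line hp
  set κ₀ := max (κ + δ) (1 / 2) with hκ₀
  have hκ1 : κ₀ < 1 := max_lt hκδ (by norm_num)
  have hκ2 : κ + δ ≤ κ₀ := le_max_left _ _
  have hκ3 : 1 / 2 ≤ κ₀ := le_max_right _ _
  have hδ : 0 < 1 - κ₀ := by linarith
  set c : ℝ := (1 - κ₀) * ν / 2 with hc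
  have hc0 : 0 < c := by positivity
  obtain ⟨D1, hD10, hD1⟩ := young2 (θ := θ) (ε := c) (c := 2 * C0) hθ0 hθ2 hc0 (by positivity)
  set D2 : ℝ := 2 / c + 2496 with hD2
  have hD20 : 0 ≤ D2 := by positivity
  refine ⟨D1 + D2 + D2 / (2 * ν), by positivity,
    fun T u P β γ M h hsol hβi hγi hMi hhi hcomp => ?_⟩
  set y : ℝ → ℝ := fun s => enstrophy (u s) with hy
  have hy0 : ∀ s, 0 ≤ y s := fun s => enstrophy_nonneg _
  set g : ℝ → ℝ := fun s => D1 * β s ^ q + 2 * γ s + 4 * M s + D2 * (h s ^ 4 + y s) with hg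
  have hyi : ∀ t ∈ Ico 0 T, IntegrableOn y (Ioo 0 t) := by
    intro t ht
    have hyc : ContinuousOn y (Icc 0 t) :=
      hsol.enstrophy_continuousOn.mono fun s hs => ⟨hs.1, hs.2.trans_lt ht.2⟩
    exact hyc.integrableOn_Icc.mono_set Ioo_subset_Icc_self
  have hsub : ∀ t ∈ Ico 0 T, Ioo 0 t ⊆ Ioo 0 T := fun t ht => Ioo_subset_Ioo_right ht.2.le
  refine gron_ae hsol hν hκ1 hκ3 (g := g) (fun t ht => ?_) (fun t ht => ?_) ?_
  · exact ((((hβi.mono_set (hsub t ht)).const_mul D1).add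
      ((hγi.mono_set (hsub t ht)).const_mul 2)).add ((hMi.mono_set (hsub t ht)).const_mul 4)).add
      (((hhi.mono_set (hsub t ht)).add (hyi t ht)).const_mul D2)
  · -- the integral of `g`
    have hT := hsub t ht
    have j1 := (hβi.mono_set hT).const_mul D1
    have j2 := (hγi.mono_set hT).const_mul 2
    have j3 := (hMi.mono_set hT).const_mul 4
    have j4 := hhi.mono_set hT
    have j5 := hyi t ht
    have j45 : IntegrableOn (fun s => D2 * (h s ^ 4 + y s)) (Ioo 0 t) := (j4.add j5).const_mul D2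
    have j12 : IntegrableOn (fun s => D1 * β s ^ q + 2 * γ s) (Ioo 0 t) := j1.add j2
    have j123 : IntegrableOn (fun s => D1 * β s ^ q + 2 * γ s + 4 * M s) (Ioo 0 t) := j12.add j3
    have e : ∫ s in Ioo 0 t, g s = D1 * (∫ s in Ioo 0 t, β s ^ q) + 2 * (∫ s in Ioo 0 t, γ s)
        + 4 * (∫ s in Ioo 0 t, M s) + D2 * ((∫ s in Ioo 0 t, h s ^ 4) + ∫ s in Ioo 0 t, y s) := by
      simp only [hg]
      rw [integral_add j123 j45, integral_add j12 j3, integral_add j1 j2, integral_const_mul,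
        integral_const_mul, integral_const_mul, integral_const_mul, integral_add j4 j5]
    rw [e]
    have hmono : ∀ {F : ℝ → ℝ}, IntegrableOn F (Ioo 0 T) →
        (∀ᵐ s ∂(volume.restrict (Ioo 0 T)), 0 ≤ F s) →
        ∫ s in Ioo 0 t, F s ≤ ∫ s in Ioo 0 T, F s := fun hF h0 =>
      setIntegral_mono_set hF h0 hT.eventuallyLE
    have m1 := hmono hβi (by filter_upwards [hcomp] with s hs using Real.rpow_nonneg hs.1 _)
    have m2 := hmono hγi (by filter_upwards [hcomp] with s hs using hs.2.1)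
    have m3 := hmono hMi (by filter_upwards [hcomp] with s hs using hs.2.2.1)
    have m4 := hmono hhi (by filter_upwards [hcomp] with s hs using by positivity)
    have m5 : ∫ s in Ioo 0 t, y s ≤ energy (u 0) / (2 * ν) := by
      have := hsol.int_enstrophy hν ht
      rwa [intervalIntegral.integral_of_le ht.1, integral_Ioc_eq_integral_Ioo] at this
    have n1 : 0 ≤ ∫ s in Ioo 0 T, β s ^ q :=
      integral_nonneg_of_ae (by filter_upwards [hcomp] with s hs using Real.rpow_nonneg hs.1 _)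
    have n4 : 0 ≤ ∫ s in Ioo 0 T, h s ^ 4 := integral_nonneg fun s => by positivity
    have n5 := energy_nonneg (u 0)
    have q1 : D1 * (∫ s in Ioo 0 t, β s ^ q) ≤ D1 * ∫ s in Ioo 0 T, β s ^ q :=
      mul_le_mul_of_nonneg_left m1 hD10
    have q4 : D2 * ((∫ s in Ioo 0 t, h s ^ 4) + ∫ s in Ioo 0 t, y s)
        ≤ D2 * ((∫ s in Ioo 0 T, h s ^ 4) + energy (u 0) / (2 * ν)) :=
      mul_le_mul_of_nonneg_left (add_le_add m4 m5) hD20
    have r1 : 0 ≤ (D2 + D2 / (2 * ν)) * ∫ s in Ioo 0 T, β s ^ q := by positivity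
    have r2 : 0 ≤ (D1 + D2 / (2 * ν)) * ∫ s in Ioo 0 T, h s ^ 4 := by positivity
    have r3 : 0 ≤ (D1 + D2) * energy (u 0) := by positivity
    have r4 : D2 * (energy (u 0) / (2 * ν)) = D2 / (2 * ν) * energy (u 0) := by ring
    have q5 : D2 * ((∫ s in Ioo 0 T, h s ^ 4) + energy (u 0) / (2 * ν))
        = D2 * (∫ s in Ioo 0 T, h s ^ 4) + D2 / (2 * ν) * energy (u 0) := by rw [mul_add, r4]
    rw [q5] at q4
    have q6 : (D1 + D2 + D2 / (2 * ν)) * ((∫ s in Ioo 0 T, β s ^ q) + (∫ s in Ioo 0 T, h s ^ 4)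
        + energy (u 0)) = D1 * (∫ s in Ioo 0 T, β s ^ q)
          + (D2 + D2 / (2 * ν)) * (∫ s in Ioo 0 T, β s ^ q)
          + (D2 * (∫ s in Ioo 0 T, h s ^ 4) + (D1 + D2 / (2 * ν)) * (∫ s in Ioo 0 T, h s ^ 4))
          + (D2 / (2 * ν) * energy (u 0) + (D1 + D2) * energy (u 0)) := by ring
    rw [q6]
    linarith
  · -- the inequality at almost all times
    filter_upwards [hcomp, ae_restrict_mem measurableSet_Ioo] with t ht hτ
    obtain ⟨hβ0, hγ0, hM0, hh0, f₁, f₂, c1, c2, c3, c4, c5, c6, c7, c8, c9, c10⟩ := ht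
    have hI : t ∈ Ico 0 T := ⟨hτ.1.le, hτ.2⟩
    have hyt := hy0 t
    refine ⟨by
      have := Real.rpow_nonneg hβ0 q
      simp only [hg]
      positivity, ?_⟩
    set G := Real.sqrt (y t) with hG
    set H := Real.sqrt (palin (u t)) with hH
    have hG2 : G ^ 2 = y t := Real.sq_sqrt (hy0 t)
    have hH2 : H ^ 2 = palin (u t) := Real.sq_sqrt (palin_nonneg _)
    have hG0 : 0 ≤ G := Real.sqrt_nonneg _
    have hH0 : 0 ≤ H := Real.sqrt_nonneg _
    have ha : GH2 (fun i x => u t x i) G H :=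
      ⟨fun i => hsol.sp hI i, hG0, hH0, hG2.symm.le, hH2.symm.le⟩
    have hprod := hC0 (u t) f₁ f₂ (β t) (γ t) (δ * ν) κ ν (M t) (h t) G H ha (hsol.divfree t hI)
      hβ0 hκ hν.le hM0 hh0 c1 c2 c3 c4 c5 c6 c7 c8 c9 c10
    have hY1 := hD1 (β t) G H hβ0 hG0 hH0
    have hY2 := interp (h := h t) hc0 hG0 hH0 (osc_sq_le ha)
    have h8 : g t * y t = D1 * (β t ^ (2 / (2 - θ)) * G ^ 2) + 2 * γ t * y t + 4 * M t * y t
        + D2 * ((h t ^ 4 + G ^ 2) * G ^ 2) := by
      simp only [hg]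
      rw [hG2, hq]
      ring
    show -(2 * cub (fun i x => u t x i)) ≤ (2 - (1 - κ₀)) * (ν * palin (u t)) + g t * y t
    rw [h8]
    have h9 : (κ + δ) * (ν * palin (u t)) ≤ κ₀ * (ν * palin (u t)) :=
      mul_le_mul_of_nonneg_right hκ2 (mul_nonneg hν.le (palin_nonneg _))
    have h10 : c * H ^ 2 = (1 - κ₀) / 2 * (ν * palin (u t)) := by rw [hH2, hc]; ring
    rw [h10] at hY1 hY2
    have h11 : enstrophy (u t) = y t := rfl
    rw [h11] at hprod
    have h12 : 4 * (h t * osc (u t)) * G ^ 2 = 2 * (2 * (h t * osc (u t)) * y t) := by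
      rw [hG2]; ring
    rw [h12] at hY2
    nlinarith

end Pool.Agent.Q177.ML
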