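import Pool.Agent.Q177.ML.Main

/-!
The pointwise condition `|(ω · ∇) ω| ≤ h |ω|²` in the region of large vorticity.
-/

open MeasureTheory Set Filter Topology
open scoped ContDiff ENNReal NNReal
open H459R3.NS Pool.Agent.W268.NS Pool.Agent.GR.Flow Pool.Agent.TH811.SPD

namespace Pool.Agent.Q177.ML

section

variable {v : V → V} (hv : ∀ i, SP (fun y => v y i))

/-- the derivative of `|ω|²` along the vortex lines -/
noncomputable def dvs (v : V → V) (x : V) : ℝ :=
  ∑ j, 2 * vort v x j * ∑ i, vort v x i * pd i (fun y => vort v y j) x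

theorem abs_dvs_le (v : V → V) (x : V) : |dvs v x| ≤ 2 * (Real.sqrt (vortSq v x) * bend v x) := by
  have h1 := Finset.sum_mul_sq_le_sq_mul_sq (Finset.univ : Finset (Fin 3))
    (fun j => vort v x j) (fun j => ∑ i, vort v x i * pd i (fun y => vort v y j) x)
  have h2 : |∑ j, vort v x j * ∑ i, vort v x i * pd i (fun y => vort v y j) x|
      ≤ Real.sqrt (vortSq v x) * bend v x := by
    unfold vortSq bend
    rw [← Real.sqrt_mul (Finset.sum_nonneg fun _ _ => sq_nonneg _)]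
    exact Real.le_sqrt_of_sq_le (by rw [sq_abs]; exact h1)
  have e : dvs v x = 2 * ∑ j, vort v x j * ∑ i, vort v x i * pd i (fun y => vort v y j) x := by
    unfold dvs
    rw [Finset.mul_sum]
    exact Finset.sum_congr rfl fun j _ => by ring
  rw [e, abs_mul, abs_of_pos (by norm_num : (0 : ℝ) < 2)]
  linarith

include hv in
theorem hasDerivAt_vs {X : ℝ → V} (hX : ∀ r, HasDerivAt X (vort v (X r)) r) (r : ℝ) :
    HasDerivAt (fun r => vortSq v (X r)) (dvs v (X r)) r := by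
  have hder : ∀ {F : V → ℝ}, SP F → ∀ r, HasDerivAt (fun r => F (X r))
      (∑ i, vort v (X r) i * pd i F (X r)) r := by
    intro F hF r
    have h1 := (hF.diff (X r)).hasFDerivAt.comp_hasDerivAt r (hX r)
    have h2 := adv_eq (vort v) F (X r)
    unfold adv at h2
    rw [h2]
    exact h1
  unfold vortSq dvs
  refine HasDerivAt.fun_sum fun j _ => ?_
  refine ((hder (sp_vort hv j) r).fun_pow 2).congr_deriv ?_
  norm_num

include hv in
theorem seg_of_bend {ν h M : ℝ} (hh : 1 ≤ h)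
    (hb : ∀ x, M ^ 2 < vortSq v x → bend v x ≤ h * vortSq v x) {x : V}
    (hx : (3 * M) ^ 2 < vortSq v x) : HasSegment 0 ν (46 * h) (fun _ => 0) v x := by
  have hw := spv_vort hv
  have hws : ∀ i, SP (fun y => vort v y i) := fun i => hw.sp i
  obtain ⟨g, hg⟩ := exists_flow hws
  set X : ℝ → V := fun r => g r x with hX
  have hXd : ∀ r, HasDerivAt X (vort v (X r)) r := fun r => hg.deriv x r
  have hX0 : X 0 = x := hg.zero x
  set w0 := Real.sqrt (vortSq v x) with hw0
  have hvpos : 0 < vortSq v x := (sq_nonneg _).trans_lt hx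
  have hw0p : 0 < w0 := Real.sqrt_pos.2 hvpos
  have hw0s : w0 ^ 2 = vortSq v x := Real.sq_sqrt hvpos.le
  have hM3 : 9 * M ^ 2 < w0 ^ 2 := by rw [hw0s]; linarith [hx, mul_pow 3 M 2]
  have hh0 : 0 < h := by linarith
  set α := 5 * h * w0 with hα
  have hα0 : 0 < α := by positivity
  set R := 1 / (15 * h * w0) with hR
  have hR0 : 0 < R := by positivity
  have hαR : ∀ r ∈ Icc 0 R, 0 ≤ α * r ∧ α * r ≤ 1 / 3 := by
    intro r hr
    refine ⟨mul_nonneg hα0.le hr.1, ?_⟩
    have h1 : α * r ≤ α * R := mul_le_mul_of_nonneg_left hr.2 hα0.le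
    have h2 : α * R = 1 / 3 := by
      rw [hα, hR]
      field_simp
      norm_num
    linarith
  have hWd := hasDerivAt_vs hv hXd
  have hWc : Continuous fun r => vortSq v (X r) :=
    continuous_iff_continuousAt.2 fun r => (hWd r).continuousAt
  -- the bound of the derivative
  have hdb : ∀ r, M ^ 2 < vortSq v (X r) →
      |dvs v (X r)| ≤ 2 * h * (Real.sqrt (vortSq v (X r)) * vortSq v (X r)) := by
    intro r hr
    refine (abs_dvs_le v (X r)).trans ?_
    have h1 := hb (X r) hr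
    have h2 := mul_le_mul_of_nonneg_left h1 (Real.sqrt_nonneg (vortSq v (X r)))
    calc 2 * (Real.sqrt (vortSq v (X r)) * bend v (X r))
        ≤ 2 * (Real.sqrt (vortSq v (X r)) * (h * vortSq v (X r))) := by linarith
      _ = _ := by ring
  -- upper bound
  have hup : ∀ r ∈ Icc 0 R, vortSq v (X r) ≤ w0 ^ 2 * (1 + α * r) ^ 2 := by
    refine image_le_of_deriv_right_lt_deriv_boundary (f := fun r => vortSq v (X r))
      (f' := fun r => dvs v (X r)) (B := fun r => w0 ^ 2 * (1 + α * r) ^ 2)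
      (B' := fun r => w0 ^ 2 * (2 * (1 + α * r) * α)) hWc.continuousOn
      (fun r _ => (hWd r).hasDerivWithinAt) ?_ (fun r => ?_) (fun r hr heq => ?_)
    · simp only [hX0, mul_zero, add_zero, one_pow, mul_one]
      exact hw0s.symm.le
    · have h1 : HasDerivAt (fun r : ℝ => 1 + α * r) α r := by
        simpa using ((hasDerivAt_id r).const_mul α).const_add 1
      refine ((h1.fun_pow 2).const_mul (w0 ^ 2)).congr_deriv ?_
      norm_num
    · obtain ⟨b1, b2⟩ := hαR r (Ico_subset_Icc_self hr)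
      have hs : Real.sqrt (vortSq v (X r)) = w0 * (1 + α * r) := by
        have heq' : vortSq v (X r) = (w0 * (1 + α * r)) ^ 2 := by rw [heq]; ring
        rw [heq', Real.sqrt_sq (by positivity)]
      have hlt : M ^ 2 < vortSq v (X r) := by
        have h3 : 1 ≤ (1 + α * r) ^ 2 := by nlinarith
        have h4 : w0 ^ 2 ≤ vortSq v (X r) := by
          have heq' : vortSq v (X r) = w0 ^ 2 * (1 + α * r) ^ 2 := heq
          rw [heq']
          nlinarith [sq_nonneg w0]
        nlinarith [sq_nonneg M]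
      have h5 := (le_abs_self _).trans (hdb r hlt)
      rw [hs] at h5
      have heq' : vortSq v (X r) = w0 ^ 2 * (1 + α * r) ^ 2 := heq
      rw [heq'] at h5
      refine h5.trans_lt ?_
      have h6 : (1 + α * r) ^ 2 < 5 := by nlinarith
      have h7 : 0 < 2 * w0 ^ 2 * (1 + α * r) * (h * w0) := by positivity
      have e1 : 2 * h * (w0 * (1 + α * r) * (w0 ^ 2 * (1 + α * r) ^ 2))
          = 2 * w0 ^ 2 * (1 + α * r) * (h * w0) * (1 + α * r) ^ 2 := by ring
      have e2 : w0 ^ 2 * (2 * (1 + α * r) * α) = 2 * w0 ^ 2 * (1 + α * r) * (h * w0) * 5 := by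
        rw [show w0 ^ 2 * (2 * (1 + α * r) * α) = 2 * w0 ^ 2 * (1 + α * r) * α by ring]
        rw [show 2 * w0 ^ 2 * (1 + α * r) * (h * w0) * 5
          = 2 * w0 ^ 2 * (1 + α * r) * (5 * h * w0) by ring]
      rw [e1, e2]
      exact mul_lt_mul_of_pos_left h6 h7
  -- lower bound
  have hlow' : ∀ r ∈ Icc 0 R, -vortSq v (X r) ≤ -(w0 ^ 2 * (1 - α * r) ^ 2) := by
    refine image_le_of_deriv_right_lt_deriv_boundary (f := fun r => -vortSq v (X r))
      (f' := fun r => -dvs v (X r)) (B := fun r => -(w0 ^ 2 * (1 - α * r) ^ 2))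
      (B' := fun r => -(w0 ^ 2 * (2 * (1 - α * r) * (-α)))) hWc.neg.continuousOn
      (fun r _ => (hWd r).neg.hasDerivWithinAt) ?_ (fun r => ?_) (fun r hr heq => ?_)
    · simp only [hX0, mul_zero, sub_zero, one_pow, mul_one]
      exact (neg_le_neg hw0s.le)
    · have h1 : HasDerivAt (fun r : ℝ => 1 - α * r) (-α) r := by
        simpa using ((hasDerivAt_id r).const_mul α).const_sub 1
      refine (((h1.fun_pow 2).const_mul (w0 ^ 2)).fun_neg).congr_deriv ?_
      norm_num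
    · obtain ⟨b1, b2⟩ := hαR r (Ico_subset_Icc_self hr)
      have heq' : vortSq v (X r) = w0 ^ 2 * (1 - α * r) ^ 2 := by
        have : -vortSq v (X r) = -(w0 ^ 2 * (1 - α * r) ^ 2) := heq
        linarith
      have hpos : 0 < 1 - α * r := by linarith
      have hs : Real.sqrt (vortSq v (X r)) = w0 * (1 - α * r) := by
        have heq2 : vortSq v (X r) = (w0 * (1 - α * r)) ^ 2 := by rw [heq']; ring
        rw [heq2, Real.sqrt_sq (by positivity)]
      have hlt : M ^ 2 < vortSq v (X r) := by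
        have h3 : 4 / 9 ≤ (1 - α * r) ^ 2 := by nlinarith
        have h4 : 4 / 9 * w0 ^ 2 ≤ vortSq v (X r) := by
          rw [heq']
          nlinarith [sq_nonneg w0]
        nlinarith [sq_nonneg M]
      have h5 := (neg_le_abs _).trans (hdb r hlt)
      rw [hs, heq'] at h5
      refine h5.trans_lt ?_
      have h6 : (1 - α * r) ^ 2 < 5 := by nlinarith
      have h7 : 0 < 2 * w0 ^ 2 * (1 - α * r) * (h * w0) := by positivity
      have e1 : 2 * h * (w0 * (1 - α * r) * (w0 ^ 2 * (1 - α * r) ^ 2))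
          = 2 * w0 ^ 2 * (1 - α * r) * (h * w0) * (1 - α * r) ^ 2 := by ring
      have e2 : -(w0 ^ 2 * (2 * (1 - α * r) * (-α))) = 2 * w0 ^ 2 * (1 - α * r) * (h * w0) * 5 := by
        rw [show -(w0 ^ 2 * (2 * (1 - α * r) * (-α))) = 2 * w0 ^ 2 * (1 - α * r) * α by ring]
        rw [show 2 * w0 ^ 2 * (1 - α * r) * (h * w0) * 5
          = 2 * w0 ^ 2 * (1 - α * r) * (5 * h * w0) by ring]
      rw [e1, e2]
      exact mul_lt_mul_of_pos_left h6 h7
  have hlow : ∀ r ∈ Icc 0 R, 4 / 9 * w0 ^ 2 ≤ vortSq v (X r) := by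
    intro r hr
    have h1 := hlow' r hr
    obtain ⟨b1, b2⟩ := hαR r hr
    have h3 : 4 / 9 ≤ (1 - α * r) ^ 2 := by nlinarith
    nlinarith [sq_nonneg w0]
  have hcI : ∀ {F : ℝ → ℝ}, Continuous F → IntegrableOn F (Ioo 0 R) := fun hF =>
    (hF.continuousOn.integrableOn_Icc (a := 0) (b := R)).mono_set Ioo_subset_Icc_self
  have hXc : Continuous X := continuous_iff_continuousAt.2 fun r => (hXd r).continuousAt
  have iW := hcI hWc
  have ib : IntegrableOn (fun r => bend v (X r)) (Ioo 0 R) := hcI ((bend_cont hv).comp hXc)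
  have hWint : 4 / 135 * (w0 / h) ≤ ∫ r in Ioo 0 R, vortSq v (X r) := by
    have h1 : ∫ _ in Ioo 0 R, 4 / 9 * w0 ^ 2 ≤ ∫ r in Ioo 0 R, vortSq v (X r) := by
      refine setIntegral_mono_on (integrableOn_const (by
        rw [Real.volume_Ioo]; exact ENNReal.ofReal_ne_top)) iW measurableSet_Ioo
        fun r hr => hlow r (Ioo_subset_Icc_self hr)
    rw [setIntegral_const, Real.volume_real_Ioo_of_le hR0.le, sub_zero, smul_eq_mul] at h1
    have h2 : R * (4 / 9 * w0 ^ 2) = 4 / 135 * (w0 / h) := by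
      rw [hR]
      field_simp
      norm_num
    linarith
  have hbint : ∫ r in Ioo 0 R, bend v (X r) ≤ h * ∫ r in Ioo 0 R, vortSq v (X r) := by
    rw [← integral_const_mul]
    refine setIntegral_mono_on ib (iW.const_mul _) measurableSet_Ioo fun r hr => ?_
    refine hb (X r) ?_
    have := hlow r (Ioo_subset_Icc_self hr)
    nlinarith [sq_nonneg M]
  have hend : Real.sqrt (vortSq v (X R)) ≤ 4 / 3 * w0 := by
    have h1 := hup R ⟨hR0.le, le_rfl⟩
    obtain ⟨b1, b2⟩ := hαR R ⟨hR0.le, le_rfl⟩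
    have h2 : vortSq v (X R) ≤ (4 / 3 * w0) ^ 2 := by
      have h3 : (1 + α * R) ^ 2 ≤ (4 / 3) ^ 2 := pow_le_pow_left₀ (by linarith) (by linarith) 2
      nlinarith [sq_nonneg w0]
    calc Real.sqrt (vortSq v (X R)) ≤ Real.sqrt ((4 / 3 * w0) ^ 2) := Real.sqrt_le_sqrt h2
      _ = _ := Real.sqrt_sq (by positivity)
  refine ⟨X, R, hR0, hX0, hXd, Or.inr ?_⟩
  simp only [zero_mul, add_zero]
  rw [integral_const_mul]
  have h1 : Real.sqrt (vortSq v (X R)) + ∫ r in Ioo 0 R, bend v (X r)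
      ≤ 46 * h * ∫ r in Ioo 0 R, vortSq v (X r) := by
    have h2 : 4 / 3 * w0 = 45 * h * (4 / 135 * (w0 / h)) := by
      field_simp
      norm_num
    have h3 : 45 * h * (4 / 135 * (w0 / h)) ≤ 45 * h * ∫ r in Ioo 0 R, vortSq v (X r) := by
      gcongr
    linarith
  have h2 := mul_le_mul_of_nonneg_left h1 (osc_nonneg hv)
  refine h2.trans (le_of_eq ?_)
  ring

end

theorem point {ν : ℝ} (hν : 0 < ν) {T : ℝ} {u : ℝ → V → V} {P : ℝ → V → ℝ} {M h : ℝ → ℝ}
    (hsol : IsSol ν T u P) (hM : IntegrableOn M (Ioo 0 T))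
    (hh : IntegrableOn (fun t => h t ^ 4) (Ioo 0 T))
    (hb : ∀ᵐ t ∂(volume.restrict (Ioo 0 T)), 0 ≤ M t ∧ 0 ≤ h t ∧
      ∀ x, M t ^ 2 < vortSq (u t) x → bend (u t) x ≤ h t * vortSq (u t) x) :
    ∃ B, ∀ t ∈ Ico 0 T, ∀ x i, |u t x i| ≤ B := by
  obtain ⟨C, -, hC⟩ := main (p := ∞) (q := 1) (ν := ν) (κ := 0) (δ := 0)
    (ENNReal.div_lt_top (by norm_num) (by norm_num)) (by simp) hν le_rfl (by norm_num)
  have h1 : ∀ t, 1 ≤ (h t ^ 4 + 1) ^ (1 / 4 : ℝ) := fun t =>
    Real.one_le_rpow (by nlinarith [sq_nonneg (h t ^ 2)]) (by norm_num)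
  have h4 : ∀ t, ((h t ^ 4 + 1) ^ (1 / 4 : ℝ)) ^ 4 = h t ^ 4 + 1 := by
    intro t
    have h0 : 0 ≤ h t ^ 4 + 1 := by nlinarith [sq_nonneg (h t ^ 2)]
    rw [← Real.rpow_natCast, ← Real.rpow_mul h0]
    norm_num
  have hle : ∀ t, 0 ≤ h t → h t ≤ (h t ^ 4 + 1) ^ (1 / 4 : ℝ) := by
    intro t ht
    have a1 : h t ^ 4 ≤ ((h t ^ 4 + 1) ^ (1 / 4 : ℝ)) ^ 4 := by rw [h4]; linarith
    exact (pow_le_pow_iff_left₀ ht (zero_le_one.trans (h1 t)) (by norm_num)).1 a1
  have hfin : IsFiniteMeasure (volume.restrict (Ioo 0 T)) :=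
    ⟨by rw [Measure.restrict_apply_univ, Real.volume_Ioo]; exact ENNReal.ofReal_lt_top⟩
  refine (hC T u P (fun _ => 0) (fun _ => 0) (fun t => 3 * M t)
    (fun t => 46 * (h t ^ 4 + 1) ^ (1 / 4 : ℝ)) hsol (by simp) (by simp) (hM.const_mul 3) ?_ ?_).2
  · have e : (fun t => (46 * (h t ^ 4 + 1) ^ (1 / 4 : ℝ)) ^ 4) = fun t => 46 ^ 4 * (h t ^ 4 + 1) := by
      funext t
      rw [mul_pow, h4]
    rw [e]
    exact (hh.add (integrable_const 1)).const_mul _
  · filter_upwards [hb, ae_restrict_mem measurableSet_Ioo] with t ht hτ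
    obtain ⟨hM0, hh0, hx⟩ := ht
    have hsp : ∀ i, SP (fun y => u t y i) := fun i => hsol.sp ⟨hτ.1.le, hτ.2⟩ i
    have hg1 := h1 t
    refine ⟨le_rfl, le_rfl, by positivity, by positivity, fun _ => 0, fun _ => 0,
      measurable_const, fun _ _ => rfl, fun _ => le_rfl, (by simp; exact Filter.EventuallyEq.rfl),
      measurable_const, fun _ _ => rfl,
      fun _ => le_rfl, by simp, fun z _ => by simp, ?_⟩
    refine ae_of_all _ fun x hlarge => ?_
    have := seg_of_bend (ν := ν) hsp hg1 (fun y hy => (hx y hy).trans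
      (mul_le_mul_of_nonneg_right (hle t hh0) (vortSq_nonneg _ _))) hlarge
    simpa using this

end Pool.Agent.Q177.ML
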