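import Pool.Agent.Q177.ML.Erg
import Pool.Agent.TH811.SPD.Str10

/-!
The enstrophy production and segments of integral curves.
-/

open MeasureTheory Set Filter Topology
open scoped ContDiff ENNReal NNReal
open H459R3.NS Pool.Agent.W268.NS Pool.Agent.GR.Flow Pool.Agent.TH811.SPD

namespace Pool.Agent.Q177.ML

/-- The excess of the stretching rate over the admissible terms:
`ω · (ω · ∇) v - K(v) det ∇v - f |∇v|² - κ ν |Δv|²`. -/
noncomputable def exc (κ ν : ℝ) (f K : V → ℝ) (v : V → V) (x : V) : ℝ :=
  stretchRate v x - K (v x) * (gradM v x).det - f x * gradSq v x - κ * ν * lapSq v x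

section

variable {v : V → V} (hv : ∀ i, SP (fun y => v y i))

include hv in
theorem hess_eq : ∑ i, ∑ j, ∫ x in cube, ∑ l, pd l (fun y => gradM v y i j) x ^ 2 = palin v := by
  have h := sum_hess (v := fun i y => v y i) hv
  unfold palin
  rw [← h, Finset.sum_comm]
  refine Finset.sum_congr rfl fun j _ => Finset.sum_congr rfl fun i _ => ?_
  have hs : SP (pd i (fun y => v y j)) := (hv j).pd i
  have e : (fun y => gradM v y i j) = pd i (fun y => v y j) := rfl
  have hint : ∀ l ∈ Finset.univ, IntegrableOn (fun x => pd l (pd i fun y => v y j) x ^ 2) cube :=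
    fun l _ => integrableOn_cube ((hs.pd l).cont.pow 2)
  rw [e, integral_finsetSum _ hint]
  refine Finset.sum_congr rfl fun l _ => ?_
  rw [← n2_fr (hs.pd l), fr_pd hs, fr_pd (hv j)]

omit hv in
theorem enst_eq (v : V → V) :
    ∑ i, ∑ j, ∫ x in cube, (gradM v x i j) ^ 2 = enstrophy v := by
  unfold enstrophy
  rw [Finset.sum_comm]
  rfl

include hv in
theorem form_grad {f : V → ℝ} {a b : ℝ} (hf : FormBound a b f) (hfi : IntegrableOn f cube) :
    ∫ x in cube, f x * gradSq v x ≤ a * palin v + b * enstrophy v := by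
  have hi : ∀ i j, IntegrableOn (fun x => f x * gradM v x i j ^ 2) cube := fun i j =>
    int_mul_cont hfi ((sp_grad hv i j).cont.pow 2)
  have e : ∫ x in cube, f x * gradSq v x = ∑ i, ∑ j, ∫ x in cube, f x * gradM v x i j ^ 2 := by
    have e1 : ∀ x, f x * gradSq v x = ∑ i, ∑ j, f x * gradM v x i j ^ 2 := by
      intro x
      unfold gradSq
      rw [Finset.mul_sum]
      refine Finset.sum_congr rfl fun i _ => ?_
      rw [Finset.mul_sum]
    simp_rw [e1]
    rw [integral_finsetSum _ fun i _ => integrable_finsetSum _ fun j _ => hi i j]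
    refine Finset.sum_congr rfl fun i _ => ?_
    rw [integral_finsetSum _ fun j _ => hi i j]
  rw [e, ← hess_eq hv, ← enst_eq v, Finset.mul_sum, Finset.mul_sum, ← Finset.sum_add_distrib]
  refine Finset.sum_le_sum fun i _ => ?_
  rw [Finset.mul_sum, Finset.mul_sum, ← Finset.sum_add_distrib]
  exact Finset.sum_le_sum fun j _ => hf _ (sp_grad hv i j)

include hv in
theorem sp_gradSq : SP (gradSq v) := by
  have : gradSq v = fun x => ∑ i, ∑ j, gradM v x i j * gradM v x i j := by
    funext x
    unfold gradSq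
    exact Finset.sum_congr rfl fun i _ => Finset.sum_congr rfl fun j _ => sq _
  rw [this]
  exact SP.sum fun i _ => SP.sum fun j _ => (sp_grad hv i j).mul (sp_grad hv i j)

include hv in
theorem sp_lapSq : SP (lapSq v) := by
  have : lapSq v = fun x => ∑ i, lap (fun y => v y i) x * lap (fun y => v y i) x := by
    funext x
    unfold lapSq
    exact Finset.sum_congr rfl fun i _ => sq _
  rw [this]
  exact SP.sum fun i _ => (hv i).lap.mul (hv i).lap

include hv in
theorem int_lapSq : ∫ x in cube, lapSq v x = palin v := by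
  unfold lapSq palin
  rw [integral_finsetSum _ fun i _ => ?_]
  have := ((hv i).lap.mul (hv i).lap).int
  refine this.congr (Filter.Eventually.of_forall fun x => ?_)
  simp only [sq]

/-- The bound of the enstrophy production by the condition on segments. -/
theorem prod_seg {p : ℝ≥0∞} (hp : 3 / 2 < p) : ∃ C : ℝ, 0 ≤ C ∧
    ∀ (v : V → V) (f₁ f₂ K ψ : V → ℝ) (w : V → V) (β b a κ ν G H : ℝ),
      GH2 (fun i x => v x i) G H → (∀ x, ∑ i, pd i (fun y => v y i) x = 0) → 0 ≤ β →
      Measurable f₁ → Per f₁ → eLpNorm f₁ p (volume.restrict cube) ≤ ENNReal.ofReal β →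
      Measurable f₂ → Per f₂ → IntegrableOn f₂ cube → FormBound a b f₂ →
      Measurable K → IntegrableOn (fun x => K (v x) * (gradM v x).det) cube →
      SP ψ → SPV w → (∀ x, ∑ i, pd i (fun y => w y i) x = 0) →
      (∀ᵐ x ∂(volume.restrict cube), ∃ X : ℝ → V, X 0 = x ∧ (∀ r, HasDerivAt X (w (X r)) r) ∧
        ∀ ε : ℝ, 0 < ε → ∃ R : ℝ, 0 < R ∧
          ∫ r in Ioo 0 R, exc κ ν (fun y => f₁ y + f₂ y) K v (X r)
            ≤ ψ (X R) - ψ x + ε * R) →
      -cub (fun i x => v x i) ≤ C * (β * (G ^ (2 - th p) * H ^ th p)) + a * palin v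
        + b * enstrophy v + κ * ν * palin v := by
  obtain ⟨C, hC0, hC⟩ := int_pot hp
  refine ⟨C, hC0, fun v f₁ f₂ K ψ w β b a κ ν G H ha hdiv hβ hf₁ hp₁ hβ₁ hf₂ hp₂ hi₂ hform hK hKi
    hψ hw hwdiv hseg => ?_⟩
  have hv : ∀ i, SP (fun y => v y i) := ha.sp
  have hws : ∀ i, SP (fun y => w y i) := fun i => hw.sp i
  obtain ⟨g, hg⟩ := exists_flow hws
  obtain ⟨hfi, hfI⟩ := hC f₁ v G H β hf₁.aestronglyMeasurable hβ hβ₁ ha
  have i1 : IntegrableOn (stretchRate v) cube := (sp_stretchRate hv).int
  have i2 : IntegrableOn (fun x => f₂ x * gradSq v x) cube := int_mul_cont hi₂ (sp_gradSq hv).cont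
  have i3 : IntegrableOn (fun x => κ * ν * lapSq v x) cube := (sp_lapSq hv).int.const_mul _
  have e12 : (fun x => (f₁ x + f₂ x) * gradSq v x)
      = fun x => f₁ x * gradSq v x + f₂ x * gradSq v x := by funext x; ring
  have i12 : IntegrableOn (fun x => (f₁ x + f₂ x) * gradSq v x) cube := by
    rw [e12]; exact hfi.add i2
  have j1 : IntegrableOn (fun x => stretchRate v x - K (v x) * (gradM v x).det) cube := i1.sub hKi
  have j2 : IntegrableOn (fun x => stretchRate v x - K (v x) * (gradM v x).det
      - (f₁ x + f₂ x) * gradSq v x) cube := j1.sub i12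
  have j3 : IntegrableOn (exc κ ν (fun y => f₁ y + f₂ y) K v) cube := j2.sub i3
  have hadv : SP (adv w ψ) := sp_adv hws hψ
  -- the function
  set k : V → ℝ := fun x => exc κ ν (fun y => f₁ y + f₂ y) K v x - adv w ψ x with hk
  have hki : IntegrableOn k cube := j3.sub hadv.int
  have hem : Measurable (exc κ ν (fun y => f₁ y + f₂ y) K v) := by
    unfold exc
    have a1 := (sp_stretchRate hv).cont.measurable
    have a2 : Measurable fun x => K (v x) * (gradM v x).det :=
      (hK.comp (v_meas hv)).mul (sp_det hv).cont.measurable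
    have a3 : Measurable fun x => (f₁ x + f₂ x) * gradSq v x :=
      (hf₁.add hf₂).mul (sp_gradSq hv).cont.measurable
    have a4 : Measurable fun x => κ * ν * lapSq v x := (sp_lapSq hv).cont.measurable.const_mul _
    exact ((a1.sub a2).sub a3).sub a4
  have hkm : Measurable k := hem.sub hadv.cont.measurable
  have hep : Per (exc κ ν (fun y => f₁ y + f₂ y) K v) := by
    intro i x
    unfold exc
    have b1 : (gradM v (x + Pi.single i 1)).det = (gradM v x).det := (sp_det hv).per i x
    rw [(sp_stretchRate hv).per i x, (v_per hv) i x, b1, (sp_gradSq hv).per i x,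
      (sp_lapSq hv).per i x]
    simp only [hp₁ i x, hp₂ i x]
  have hkp : Per k := by
    intro i x
    simp only [hk]
    rw [hep i x, hadv.per i x]
  have hgood := ae_good hws hwdiv hg hem hep j3
  have hmain : ∫ x in cube, k x ≤ 0 := by
    refine int_nonpos hws hwdiv hg hkm hkp hki ?_
    filter_upwards [hseg, hgood] with x hx hgx
    obtain ⟨X, hX0, hX, hε⟩ := hx
    -- the curve is the orbit
    have hXg : ∀ r, X r = g r x := by
      obtain ⟨L, hL⟩ := v_lip hws
      have := ODE_solution_unique_univ (v := fun _ => w) (s := fun _ => univ) (K := L) (t₀ := 0)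
        (f := X) (g := fun t => g t x)
        (fun t => hL.lipschitzOnWith) (fun t => ⟨hX t, trivial⟩)
        (fun t => ⟨hg.deriv x t, trivial⟩) (by rw [hX0, hg.zero])
      exact fun r => congrFun this r
    intro ε hε0
    obtain ⟨R, hR, hle⟩ := hε ε hε0
    refine ⟨R, hR, ?_⟩
    simp_rw [hXg] at hle
    have hder : ∀ r, HasDerivAt (fun r => ψ (g r x)) (adv w ψ (g r x)) r :=
      fun r => deriv_flow hg hψ x r
    have hc : Continuous fun r => adv w ψ (g r x) := hadv.cont.comp (hg.continuous x)
    have h1 : ∫ r in Ioo 0 R, adv w ψ (g r x) = ψ (g R x) - ψ x := by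
      rw [← integral_Ioc_eq_integral_Ioo, ← intervalIntegral.integral_of_le hR.le,
        intervalIntegral.integral_eq_sub_of_hasDerivAt (fun r _ => hder r)
          (hc.intervalIntegrable _ _), hg.zero]
    have h2 : IntegrableOn (fun r => adv w ψ (g r x)) (Ioo 0 R) :=
      (hc.continuousOn.integrableOn_Icc (a := 0) (b := R)).mono_set Ioo_subset_Icc_self
    have h3 : seg g k R x = (∫ r in Ioo 0 R, exc κ ν (fun y => f₁ y + f₂ y) K v (g r x))
        - ∫ r in Ioo 0 R, adv w ψ (g r x) := by
      unfold seg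
      simp only [hk]
      exact integral_sub (hgx R) h2
    rw [h3, h1]
    linarith
  -- compute the integral
  have e1 : ∫ x in cube, k x = (∫ x in cube, stretchRate v x)
      - (∫ x in cube, K (v x) * (gradM v x).det)
      - ((∫ x in cube, f₁ x * gradSq v x) + ∫ x in cube, f₂ x * gradSq v x)
      - κ * ν * (∫ x in cube, lapSq v x) - ∫ x in cube, adv w ψ x := by
    simp only [hk]
    rw [integral_sub j3 hadv.int]
    congr 1
    unfold exc
    rw [integral_sub j2 i3, integral_sub j1 i12, integral_sub i1 hKi, integral_const_mul, e12,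
      integral_add hfi i2]
  rw [e1, int_moder hv hK hKi, int_adv hws hwdiv hψ, int_lapSq hv,
    ← cub_eq_stretch hv hdiv] at hmain
  have h4 := form_grad hv hform hi₂
  linarith

end

end Pool.Agent.Q177.ML
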