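import Pool.Agent.Q177.ML.Crit

/-!
The criterion for segments of vortex lines in the region of large vorticity.
-/

open MeasureTheory Set Filter Topology
open scoped ContDiff ENNReal NNReal
open H459R3.NS Pool.Agent.W268.NS Pool.Agent.GR.Flow Pool.Agent.TH811.SPD

namespace Pool.Agent.Q177.ML

/-- The square of the length of the vorticity. -/
noncomputable def vortSq (v : V → V) (x : V) : ℝ := ∑ i, vort v x i ^ 2

section

variable {v : V → V} (hv : ∀ i, SP (fun y => v y i))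

include hv in
theorem spv_vort : SPV (vort v) :=
  ⟨contDiff_pi.2 fun i => (sp_vort hv i).smooth, fun i x => funext fun j => (sp_vort hv j).per i x⟩

include hv in
theorem div_vort (x : V) : ∑ i, pd i (fun y => vort v y i) x = 0 := by
  have h0 : (fun y => vort v y 0) = fun y => pd 1 (fun z => v z 2) y - pd 2 (fun z => v z 1) y := rfl
  have h1 : (fun y => vort v y 1) = fun y => pd 2 (fun z => v z 0) y - pd 0 (fun z => v z 2) y := rfl
  have h2 : (fun y => vort v y 2) = fun y => pd 0 (fun z => v z 1) y - pd 1 (fun z => v z 0) y := rfl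
  rw [Fin.sum_univ_three, h0, h1, h2, pd_sub ((hv 2).pd 1) ((hv 1).pd 2),
    pd_sub ((hv 0).pd 2) ((hv 2).pd 0), pd_sub ((hv 1).pd 0) ((hv 0).pd 1),
    pd_comm (hv 2) 0 1, pd_comm (hv 1) 0 2, pd_comm (hv 0) 1 2]
  ring

theorem vortSq_nonneg (v : V → V) (x : V) : 0 ≤ vortSq v x :=
  Finset.sum_nonneg fun _ _ => sq_nonneg _

theorem gradSq_nonneg (v : V → V) (x : V) : 0 ≤ gradSq v x :=
  Finset.sum_nonneg fun _ _ => Finset.sum_nonneg fun _ _ => sq_nonneg _

theorem lapSq_nonneg (v : V → V) (x : V) : 0 ≤ lapSq v x :=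
  Finset.sum_nonneg fun _ _ => sq_nonneg _

theorem vortSq_le (v : V → V) (x : V) : vortSq v x ≤ 2 * gradSq v x := by
  set A := gradM v x with hA
  have h0 : vort v x 0 = A 1 2 - A 2 1 := rfl
  have h1 : vort v x 1 = A 2 0 - A 0 2 := rfl
  have h2 : vort v x 2 = A 0 1 - A 1 0 := rfl
  have hg : gradSq v x = ∑ i, ∑ j, A i j ^ 2 := rfl
  rw [hg]
  unfold vortSq
  simp only [Fin.sum_univ_three, h0, h1, h2]
  nlinarith [sq_nonneg (A 1 2 + A 2 1), sq_nonneg (A 2 0 + A 0 2), sq_nonneg (A 0 1 + A 1 0),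
    sq_nonneg (A 0 0), sq_nonneg (A 1 1), sq_nonneg (A 2 2)]

theorem stretch_sq_le (v : V → V) (x : V) :
    stretchRate v x ^ 2 ≤ vortSq v x ^ 2 * gradSq v x := by
  have h := Finset.sum_mul_sq_le_sq_mul_sq (Finset.univ : Finset (Fin 3 × Fin 3))
    (fun p => vort v x p.1 * vort v x p.2) (fun p => gradM v x p.1 p.2)
  have e1 : ∑ p : Fin 3 × Fin 3, vort v x p.1 * vort v x p.2 * gradM v x p.1 p.2
      = stretchRate v x := by
    rw [Fintype.sum_prod_type]
    unfold stretchRate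
    refine Finset.sum_congr rfl fun i _ => Finset.sum_congr rfl fun j _ => ?_
    ring
  have e2 : ∑ p : Fin 3 × Fin 3, (vort v x p.1 * vort v x p.2) ^ 2 = vortSq v x ^ 2 := by
    rw [Fintype.sum_prod_type]
    unfold vortSq
    rw [sq (∑ i, vort v x i ^ 2), Finset.sum_mul_sum]
    refine Finset.sum_congr rfl fun i _ => Finset.sum_congr rfl fun j _ => ?_
    ring
  have e3 : ∑ p : Fin 3 × Fin 3, gradM v x p.1 p.2 ^ 2 = gradSq v x := by
    rw [Fintype.sum_prod_type]
    rfl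
  rw [e1, e2, e3] at h
  exact h

/-- Where the vorticity is at most `M`, the stretching rate is at most `2 M |∇v|²`. -/
theorem stretch_le {M : ℝ} (hM : 0 ≤ M) {x : V} (hx : vortSq v x ≤ M ^ 2) :
    stretchRate v x ≤ 2 * M * gradSq v x := by
  have h1 := stretch_sq_le v x
  have h2 := vortSq_le v x
  have h3 := gradSq_nonneg v x
  have h4 := vortSq_nonneg v x
  have h5 : vortSq v x ^ 2 * gradSq v x ≤ (2 * M * gradSq v x) ^ 2 := by
    have h6 : vortSq v x ^ 2 ≤ M ^ 2 * (2 * gradSq v x) := by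
      rw [sq]
      exact mul_le_mul hx h2 h4 (sq_nonneg M)
    calc vortSq v x ^ 2 * gradSq v x ≤ M ^ 2 * (2 * gradSq v x) * gradSq v x := by gcongr
      _ ≤ (2 * M * gradSq v x) ^ 2 := by nlinarith [mul_nonneg (sq_nonneg M) (sq_nonneg (gradSq v x))]
  exact abs_le_of_sq_le_sq' (h1.trans h5) (by positivity) |>.2

/-- The hypothesis on segments of vortex lines at a given time. -/
def VortCond (p : ℝ≥0∞) (κ ν a β b M : ℝ) (v : V → V) : Prop :=
  ∃ f₁ f₂ : V → ℝ,
    Measurable f₁ ∧ Per f₁ ∧ (∀ x, 0 ≤ f₁ x) ∧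
    eLpNorm f₁ p (volume.restrict cube) ≤ ENNReal.ofReal β ∧
    Measurable f₂ ∧ Per f₂ ∧ (∀ x, 0 ≤ f₂ x) ∧ IntegrableOn f₂ cube ∧ FormBound a b f₂ ∧
    ∀ᵐ x ∂(volume.restrict cube), M ^ 2 < vortSq v x →
      ∃ (X : ℝ → V) (R : ℝ), 0 < R ∧ X 0 = x ∧ (∀ r, HasDerivAt X (vort v (X r)) r) ∧
        ∫ r in Ioo 0 R, stretchRate v (X r)
          ≤ ∫ r in Ioo 0 R, ((f₁ (X r) + f₂ (X r)) * gradSq v (X r) + κ * ν * lapSq v (X r))

include hv in
theorem seg_of_vort {p : ℝ≥0∞} (hp : 1 ≤ p) {κ ν a β b M : ℝ} (hκ : 0 ≤ κ) (hν : 0 ≤ ν)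
    (hM : 0 ≤ M) (h : VortCond p κ ν a β b M v) : SegCond p κ ν a β (b + 2 * M) v := by
  obtain ⟨f₁, f₂, hf₁, hp₁, h0₁, hβ₁, hf₂, hp₂, h0₂, hi₂, hform, hseg⟩ := h
  have hfin := cube_finite
  have hw := spv_vort hv
  have hws : ∀ i, SP (fun y => vort v y i) := fun i => hw.sp i
  have hwdiv := div_vort hv
  obtain ⟨g, hg⟩ := exists_flow hws
  have hconst : FormBound 0 (2 * M) (fun _ : V => 2 * M) := by
    intro z hz
    rw [integral_const_mul]
    linarith
  have hi₁ : IntegrableOn f₁ cube := by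
    have : MemLp f₁ p (volume.restrict cube) :=
      ⟨hf₁.aestronglyMeasurable, hβ₁.trans_lt ENNReal.ofReal_lt_top⟩
    exact this.integrable hp
  have hform' := hform.add hconst hi₂ (integrable_const _)
  rw [add_zero] at hform'
  refine ⟨f₁, fun x => f₂ x + 2 * M, fun _ => 0, fun _ => 0, vort v, hf₁, hp₁, hβ₁,
    hf₂.add_const _, fun i x => by simp only [hp₂ i x], hi₂.add (integrable_const _), hform',
    measurable_const, by simp, sp_const 0, hw, hwdiv, ?_⟩
  -- integrability along the orbits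
  set k : V → ℝ := fun x => (f₁ x + f₂ x) * gradSq v x + κ * ν * lapSq v x with hk
  have hkm : Measurable k := ((hf₁.add hf₂).mul (sp_gradSq hv).cont.measurable).add
    ((sp_lapSq hv).cont.measurable.const_mul _)
  have hkp : Per k := by
    intro i x
    simp only [hk]
    rw [hp₁ i x, hp₂ i x, (sp_gradSq hv).per i x, (sp_lapSq hv).per i x]
  have hki : IntegrableOn k cube :=
    (int_mul_cont (hi₁.add hi₂) (sp_gradSq hv).cont).add ((sp_lapSq hv).int.const_mul _)
  filter_upwards [hseg, ae_good hws hwdiv hg hkm hkp hki] with x hx hgx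
  by_cases hlarge : M ^ 2 < vortSq v x
  · obtain ⟨X, R, hR, hX0, hX, hle⟩ := hx hlarge
    refine ⟨X, hX0, hX, fun ε hε => ⟨R, hR, ?_⟩⟩
    have hXg : ∀ r, X r = g r x := by
      obtain ⟨L, hL⟩ := v_lip hws
      have := ODE_solution_unique_univ (v := fun _ => vort v) (s := fun _ => univ) (K := L)
        (t₀ := 0) (f := X) (g := fun t => g t x)
        (fun t => hL.lipschitzOnWith) (fun t => ⟨hX t, trivial⟩)
        (fun t => ⟨hg.deriv x t, trivial⟩) (by rw [hX0, hg.zero])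
      exact fun r => congrFun this r
    have hXc : Continuous X := continuous_iff_continuousAt.2 fun r => (hX r).continuousAt
    have hcI : ∀ {F : ℝ → ℝ}, Continuous F → IntegrableOn F (Ioo 0 R) := fun hF =>
      (hF.continuousOn.integrableOn_Icc (a := 0) (b := R)).mono_set Ioo_subset_Icc_self
    have i1 : IntegrableOn (fun r => stretchRate v (X r)) (Ioo 0 R) :=
      hcI ((sp_stretchRate hv).cont.comp hXc)
    have i2 : IntegrableOn (fun r => k (X r)) (Ioo 0 R) := by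
      have := hgx R
      simp_rw [← hXg] at this
      exact this
    have i3 : IntegrableOn (fun r => 2 * M * gradSq v (X r)) (Ioo 0 R) :=
      (hcI ((sp_gradSq hv).cont.comp hXc)).const_mul _
    have e : ∀ r, exc κ ν (fun y => f₁ y + (f₂ y + 2 * M)) (fun _ => 0) v (X r)
        = stretchRate v (X r) - k (X r) - 2 * M * gradSq v (X r) := by
      intro r
      unfold exc
      simp only [hk]
      ring
    simp_rw [e]
    have i12 : IntegrableOn (fun r => stretchRate v (X r) - k (X r)) (Ioo 0 R) := i1.sub i2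
    rw [integral_sub i12 i3, integral_sub i1 i2]
    have h6 : 0 ≤ ∫ r in Ioo 0 R, 2 * M * gradSq v (X r) :=
      integral_nonneg fun r => mul_nonneg (by positivity) (gradSq_nonneg _ _)
    have h7 : 0 < ε * R := mul_pos hε hR
    have h8 : ∫ r in Ioo 0 R, stretchRate v (X r) ≤ ∫ r in Ioo 0 R, k (X r) := hle
    simp only [sub_zero, zero_add]
    linarith
  · rw [not_lt] at hlarge
    refine ⟨fun r => g r x, hg.zero x, fun r => hg.deriv x r, fun ε hε => ?_⟩
    have hc : Continuous fun r => stretchRate v (g r x) - 2 * M * gradSq v (g r x) :=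
      ((sp_stretchRate hv).cont.comp (hg.continuous x)).sub
        (continuous_const.mul ((sp_gradSq hv).cont.comp (hg.continuous x)))
    have h0 : stretchRate v (g 0 x) - 2 * M * gradSq v (g 0 x) < ε := by
      rw [hg.zero]
      have := stretch_le hM hlarge
      linarith
    obtain ⟨R, hR, hball⟩ := Metric.eventually_nhds_iff.1 (hc.continuousAt.eventually
      (gt_mem_nhds h0))
    refine ⟨R, hR, ?_⟩
    simp only [sub_zero, zero_add]
    have hle : ∀ r ∈ Ioo 0 R, exc κ ν (fun y => f₁ y + (f₂ y + 2 * M)) (fun _ => 0) v (g r x)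
        ≤ ε := by
      intro r hr
      have h1 : stretchRate v (g r x) - 2 * M * gradSq v (g r x) < ε := hball (by
        rw [Real.dist_eq, sub_zero, abs_of_pos hr.1]; exact hr.2)
      have h2 : 0 ≤ (f₁ (g r x) + f₂ (g r x)) * gradSq v (g r x) :=
        mul_nonneg (add_nonneg (h0₁ _) (h0₂ _)) (gradSq_nonneg _ _)
      have h3 : 0 ≤ κ * ν * lapSq v (g r x) :=
        mul_nonneg (mul_nonneg hκ hν) (lapSq_nonneg _ _)
      unfold exc
      nlinarith
    by_cases hI : IntegrableOn (fun r => exc κ ν (fun y => f₁ y + (f₂ y + 2 * M)) (fun _ => 0) v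
        (g r x)) (Ioo 0 R)
    · have h1 : ∫ r in Ioo 0 R, exc κ ν (fun y => f₁ y + (f₂ y + 2 * M)) (fun _ => 0) v (g r x)
          ≤ ∫ _ in Ioo 0 R, ε := by
        refine setIntegral_mono_on hI (integrable_const _) measurableSet_Ioo hle
      refine h1.trans (le_of_eq ?_)
      rw [setIntegral_const, Real.volume_real_Ioo_of_le hR.le, sub_zero, smul_eq_mul, mul_comm]
    · rw [integral_undef hI]
      positivity

end

theorem vortex {p : ℝ≥0∞} (hp : 3 / 2 < p) {q : ℝ} (hpq : 3 * (p⁻¹).toReal + 2 / q = 2)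
    {ν κ δ : ℝ} (hν : 0 < ν) (hκ : 0 ≤ κ) (hκδ : κ + δ < 1) :
    ∃ C : ℝ, 0 ≤ C ∧ ∀ (T : ℝ) (u : ℝ → V → V) (P : ℝ → V → ℝ) (β γ M : ℝ → ℝ), IsSol ν T u P →
      IntegrableOn (fun t => β t ^ q) (Ioo 0 T) → IntegrableOn γ (Ioo 0 T) →
      IntegrableOn M (Ioo 0 T) →
      (∀ᵐ t ∂(volume.restrict (Ioo 0 T)), 0 ≤ β t ∧ 0 ≤ γ t ∧ 0 ≤ M t ∧
        VortCond p κ ν (δ * ν) (β t) (γ t) (M t) (u t)) →
      (∀ t ∈ Ico 0 T, enstrophy (u t) ≤ enstrophy (u 0) * Real.exp
        (C * (∫ τ in Ioo 0 T, β τ ^ q) + 2 * (∫ τ in Ioo 0 T, γ τ) + 4 * ∫ τ in Ioo 0 T, M τ)) ∧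
      ∃ B, ∀ t ∈ Ico 0 T, ∀ x i, |u t x i| ≤ B := by
  obtain ⟨C, hC0, hC⟩ := criterion hp hpq hν hκδ
  have hp1 : 1 ≤ p := by
    refine le_trans ?_ hp.le
    rw [ENNReal.le_div_iff_mul_le (by norm_num) (by norm_num)]
    norm_num
  refine ⟨C, hC0, fun T u P β γ M h hβ hγ hM hcond => ?_⟩
  have hγM : IntegrableOn (fun t => γ t + 2 * M t) (Ioo 0 T) := hγ.add (hM.const_mul 2)
  have h1 := hC T u P β (fun t => γ t + 2 * M t) h hβ hγM (by
    filter_upwards [hcond, ae_restrict_mem measurableSet_Ioo] with t ht hτ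
    obtain ⟨a1, a2, a3, a4⟩ := ht
    exact ⟨a1, by positivity, seg_of_vort (fun i => h.sp ⟨hτ.1.le, hτ.2⟩ i) hp1 hκ hν.le a3 a4⟩)
  have e : ∫ τ in Ioo 0 T, (γ τ + 2 * M τ) = (∫ τ in Ioo 0 T, γ τ) + 2 * ∫ τ in Ioo 0 T, M τ := by
    rw [integral_add hγ (hM.const_mul 2), integral_const_mul]
  rw [e] at h1
  refine ⟨fun t ht => (h1.1 t ht).trans (le_of_eq ?_), h1.2⟩
  congr 2
  ring

end Pool.Agent.Q177.ML
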